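import Pool.Agent.N397.AV.TwA
import Pool.Agent.N397.AV.RepF
import Pool.Agent.N397.AV.ChebF

/-!
# The minimalist conjecture for Artin twists: moments over all elliptic curves by height

Let `F/ℚ` be a finite Galois extension, `ρ` a complex representation of `Gal(F/ℚ)`, `S` a finite set of primes and
`σ_p`, `p ∉ S`, Frobenius elements. For an elliptic curve `E : y² = x³ + A x + B` over `ℚ` the Euler factor of
`L(E, ρ, s)` at a prime `p ∉ S`, `p ∤ 6Δ`, is `det(1 - a_p p^{-s} ρ(σ_p) + p^{1-2s} ρ(σ_p)²)⁻¹`. Fix `γ > π/2` and let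
`w(u) = cos(γu) / Γ(1 + u)`,

`P_T(E, ρ) = ∏_p |det(1 - a_p p⁻¹ ρ(σ_p) + p⁻¹ ρ(σ_p)²)|^{w(log p / T)}`,

a product over all primes which converges absolutely.

A. For EVERY curve `c T^m ≤ P_T(E, ρ) ≤ C T^m` for all large `T`, `m` the order of `L(E, ρ, s)` at `s = 1` (for every
meromorphic continuation to the points of `[1, 3/2]`), with no hypothesis on the zeros.

B, C. Let `E` run over all the elliptic curves over `ℚ` ordered by the height. For every REAL `k`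

`lim_{X → ∞} average_{H(E) ≤ X} P_T(E, ρ)^k = M_k(T)` and `log M_k(T) / log T → (k ε + k² v) / 2`,

`ε` the mean of `Re χ(g²)` and `v` the mean of `(Re χ(g))²` over `Gal(F/ℚ)`. If `ρ` is irreducible, this is
`k (k + 1) / 2` if `ρ` is orthogonal, `k (k - 1) / 2` if `ρ` is symplectic, and `k² / 4` if `ρ` is not self-dual: the
exponents of Keating and Snaith for the three symmetry types of Katz and Sarnak.

D. For all large `T` and `X ≥ X₀(T)` the exponent `log P_T(E, ρ) / log T` differs from `ε / 2` by `δ` or more for a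
proportion of at most `T^{-δ² / (2v) + η}` of the curves. So for `ρ` not self-dual the typical exponent is `0`: the
analytic form of the first rule of the conjecture, with the two limits in the other order.

The rotated law for a single curve and the mean value theorem for one prime are those of the starting library
`Pool.Agent.X287.CR`, `Pool.Agent.X278` (helpers 287 and 278), Chebotarev's theorem is that of `Pool.Agent.W401`; new
are the independence over the family, the second moment, the sums with class functions as coefficients, the moments.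
-/

set_option autoImplicit false

open Filter Topology Matrix NumberField

namespace Pool.Agent.Results.MP_775b3b_nt.ArtinTwistMoments

/-- The pairs `(A, B)` of the problem: `4A³ + 27B² ≠ 0`, and no prime `p` satisfies `p⁴ ∣ A` and `p⁶ ∣ B`. -/
def IsMinimal (A B : ℤ) : Prop :=
  4 * A ^ 3 + 27 * B ^ 2 ≠ 0 ∧ ∀ p : ℕ, p.Prime → ¬ ((p : ℤ) ^ 4 ∣ A ∧ (p : ℤ) ^ 6 ∣ B)

/-- The height `max(4|A|³, 27B²)`. -/
def height (A B : ℤ) : ℤ := max (4 * |A| ^ 3) (27 * B ^ 2)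

/-- The minimal pairs of height at most `X`; one for every elliptic curve over `ℚ` of height at most `X`. -/
noncomputable def family (X : ℕ) : Finset (ℤ × ℤ) :=
  open Classical in (Finset.Icc (-(X : ℤ)) X ×ˢ Finset.Icc (-(X : ℤ)) X).filter
    fun E => IsMinimal E.1 E.2 ∧ height E.1 E.2 ≤ X

/-- The average of a function over the curves of height at most `X`. -/
noncomputable def average (X : ℕ) (f : ℤ × ℤ → ℝ) : ℝ := (∑ E ∈ family X, f E) / (family X).card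

/-- The number of points of `y² = x³ + A x + B` modulo `p`, with the point at infinity. -/
noncomputable def points (A B : ℤ) (p : ℕ) : ℕ :=
  Nat.card {P : ZMod p × ZMod p // P.2 ^ 2 = P.1 ^ 3 + (A : ZMod p) * P.1 + (B : ZMod p)} + 1

section

variable {F : Type} [Field F] [NumberField F] {n : ℕ}

/-- `g` is a Frobenius element at `p`: there is a maximal ideal `Q` of the ring of integers which contains `p` such that
`g x ≡ x ^ p` modulo `Q` for all integers `x` of `F`. -/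
def IsFrobenius (p : ℕ) (g : Gal(F/ℚ)) : Prop :=
  ∃ Q : Ideal (𝓞 F), Q.IsMaximal ∧ (p : 𝓞 F) ∈ Q ∧ ∀ x : 𝓞 F, g • x - x ^ p ∈ Q

/-- `det(1 - a_p p^{-s} R + p^{1-2s} R²)`, `a_p = p + 1 - N_p`. -/
noncomputable def localFactor (A B : ℤ) (R : Matrix (Fin n) (Fin n) ℂ) (p : ℕ) (s : ℂ) : ℂ :=
  (1 - (((p : ℂ) + 1 - points A B p) * (p : ℂ) ^ (-s)) • R + ((p : ℂ) ^ (1 - 2 * s)) • R ^ 2).det

/-- The primes which are left out: those in `S`, and those which divide `6 (4A³ + 27B²)`. -/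
def IsBad (S : Finset ℕ) (A B : ℤ) (p : ℕ) : Prop := p ∈ S ∨ (p : ℤ) ∣ 6 * (4 * A ^ 3 + 27 * B ^ 2)

/-- The Euler factor of `L(E, ρ, s)` at `p`; `1` if `p` is left out. -/
noncomputable def eulerFactor (S : Finset ℕ) (σ : ℕ → Gal(F/ℚ)) (ρ : Gal(F/ℚ) →* Matrix (Fin n) (Fin n) ℂ) (A B : ℤ)
    (s : ℂ) (p : Nat.Primes) : ℂ :=
  open Classical in if IsBad S A B p then 1 else (localFactor A B (ρ (σ p)) p s)⁻¹

/-- The absolute value of the inverse Euler factor at `s = 1`; `1` if `p` is left out. -/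
noncomputable def ratio (S : Finset ℕ) (σ : ℕ → Gal(F/ℚ)) (ρ : Gal(F/ℚ) →* Matrix (Fin n) (Fin n) ℂ) (A B : ℤ)
    (p : ℕ) : ℝ :=
  open Classical in if IsBad S A B p then 1 else ‖localFactor A B (ρ (σ p)) p 1‖

/-- The weight `cos(γu) / Γ(1 + u)`. -/
noncomputable def weight (γ u : ℝ) : ℝ := Real.cos (γ * u) / Real.Gamma (1 + u)

/-- `P_T(E, ρ)`. -/
noncomputable def P (S : Finset ℕ) (σ : ℕ → Gal(F/ℚ)) (ρ : Gal(F/ℚ) →* Matrix (Fin n) (Fin n) ℂ) (γ T : ℝ)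
    (E : ℤ × ℤ) : ℝ :=
  ∏' p : Nat.Primes, ratio S σ ρ E.1 E.2 p ^ weight γ (Real.log (p : ℕ) / T)

/-- `ε`, the mean of `Re χ(g²)`; for irreducible `ρ` the Frobenius-Schur indicator. -/
noncomputable def schur (ρ : Gal(F/ℚ) →* Matrix (Fin n) (Fin n) ℂ) : ℝ :=
  (∑ g : Gal(F/ℚ), ((ρ (g ^ 2)).trace).re) / Nat.card Gal(F/ℚ)

/-- `v`, the mean of `(Re χ(g))²`. -/
noncomputable def second (ρ : Gal(F/ℚ) →* Matrix (Fin n) (Fin n) ℂ) : ℝ :=
  (∑ g : Gal(F/ℚ), ((ρ g).trace).re ^ 2) / Nat.card Gal(F/ℚ)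

/-- The number of the curves of height at most `X` whose exponent `log P_T(E, ρ) / log T` differs from `ε / 2` by at
least `δ`. -/
noncomputable def exceptions (S : Finset ℕ) (σ : ℕ → Gal(F/ℚ)) (ρ : Gal(F/ℚ) →* Matrix (Fin n) (Fin n) ℂ)
    (γ T δ : ℝ) (X : ℕ) : ℕ :=
  Set.ncard {E : ℤ × ℤ | E ∈ family X ∧ δ ≤ |Real.log (P S σ ρ γ T E) / Real.log T - schur ρ / 2|}

/-- The mean of the `x`-th power of the ratio over the `p`-adic minimal pairs: the pairs with `p⁴ ∣ A` and `p⁶ ∣ B`, of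
measure `p⁻¹⁰`, are removed. -/
noncomputable def localMean (S : Finset ℕ) (σ : ℕ → Gal(F/ℚ)) (ρ : Gal(F/ℚ) →* Matrix (Fin n) (Fin n) ℂ)
    (p : Nat.Primes) (x : ℝ) : ℝ :=
  ((∑ a ∈ Finset.range p, ∑ b ∈ Finset.range p, ratio S σ ρ (a : ℤ) (b : ℤ) p ^ x) / (p : ℕ) ^ 2 - 1 / (p : ℕ) ^ 10) /
    (1 - 1 / (p : ℕ) ^ 10)

/-- `M_k(T)`. -/
noncomputable def M (S : Finset ℕ) (σ : ℕ → Gal(F/ℚ)) (ρ : Gal(F/ℚ) →* Matrix (Fin n) (Fin n) ℂ) (γ k T : ℝ) : ℝ :=
  ∏' p : Nat.Primes, localMean S σ ρ p (k * weight γ (Real.log (p : ℕ) / T))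

/-- `ρ` is irreducible (Schur's criterion): only the scalar matrices commute with all `ρ(g)`. -/
def IsIrreducible (ρ : Gal(F/ℚ) →* Matrix (Fin n) (Fin n) ℂ) : Prop :=
  0 < n ∧ ∀ Y : Matrix (Fin n) (Fin n) ℂ, (∀ g, ρ g * Y = Y * ρ g) → ∃ c : ℂ, Y = c • (1 : Matrix (Fin n) (Fin n) ℂ)

/-- `Y` intertwines the dual of `ρ` and `ρ`, an invariant bilinear form on the dual. -/
def IsInvariant (ρ : Gal(F/ℚ) →* Matrix (Fin n) (Fin n) ℂ) (Y : Matrix (Fin n) (Fin n) ℂ) : Prop :=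
  ∀ g, ρ g * Y * (ρ g)ᵀ = Y

end

open Pool.Agent.X278.AV Pool.Agent.N397.AV

section

variable {F : Type} [Field F] [NumberField F] {n : ℕ} {S : Finset ℕ} {σ : ℕ → Gal(F/ℚ)}
  {ρ : Gal(F/ℚ) →* Matrix (Fin n) (Fin n) ℂ}

theorem good_iff (A B : ℤ) (p : ℕ) :
    (p : ℤ) ∣ 6 * (4 * A ^ 3 + 27 * B ^ 2) ↔ (6 : ZMod p) * (4 * (A : ZMod p) ^ 3 + 27 * (B : ZMod p) ^ 2) = 0 := by
  rw [← ZMod.intCast_zmod_eq_zero_iff_dvd]
  push_cast
  rfl

/-- the eigenvalues -/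
theorem eig_all (σ : ℕ → Gal(F/ℚ)) (ρ : Gal(F/ℚ) →* Matrix (Fin n) (Fin n) ℂ) :
    ∃ μ₀ : ℕ → Fin n → ℂ, (∀ p j, ‖μ₀ p j‖ = 1) ∧ (∀ p, (ρ (σ p)).trace = ∑ j, μ₀ p j) ∧
      (∀ p, (ρ (σ p ^ 2)).trace = ∑ j, μ₀ p j ^ 2) ∧
      ∀ (p : ℕ) (x y : ℂ), (1 - (x + y) • ρ (σ p) + (x * y) • ρ (σ p) ^ 2).det =
        ∏ j, ((1 - x * μ₀ p j) * (1 - y * μ₀ p j)) := by
  have hk : Nat.card Gal(F/ℚ) ≠ 0 := Nat.card_pos.ne'
  have hfin : ∀ p : ℕ, ρ (σ p) ^ Nat.card Gal(F/ℚ) = 1 := fun p => by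
    rw [← map_pow, pow_card_eq_one', map_one]
  choose μ₀ h1 h2 h3 h4 using fun p : ℕ => eigen hk (hfin p)
  refine ⟨μ₀, h1, fun p => trace_eig fun z _ => h2 p z, fun p => ?_, h4⟩
  rw [map_pow]
  exact trace_eig fun z _ => h3 p z

open Classical in
/-- the eigenvalues, zero for the primes in `S` -/
noncomputable def mu (S : Finset ℕ) (μ₀ : ℕ → Fin n → ℂ) (p : Nat.Primes) (j : Fin n) : ℂ :=
  if (p : ℕ) ∈ S then 0 else μ₀ p j

theorem mu_le {μ₀ : ℕ → Fin n → ℂ} (h : ∀ p j, ‖μ₀ p j‖ = 1) (p : Nat.Primes) (j : Fin n) : ‖mu S μ₀ p j‖ ≤ 1 := by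
  unfold mu
  split_ifs
  · rw [norm_zero]; exact zero_le_one
  · exact (h _ _).le

theorem local_eq {A B : ℤ} {p : Nat.Primes} (hg : GoodQ A B p) (hS : (p : ℕ) ∉ S) {μ₀ : ℕ → Fin n → ℂ}
    (h4 : ∀ (p : ℕ) (x y : ℂ), (1 - (x + y) • ρ (σ p) + (x * y) • ρ (σ p) ^ 2).det =
        ∏ j, ((1 - x * μ₀ p j) * (1 - y * μ₀ p j))) (s : ℂ) :
    localFactor A B (ρ (σ p)) p s = ∏ j, ((1 - (qal A B p 0 * ((p : ℕ) : ℂ) ^ (-s)) * mu S μ₀ p j) *
      (1 - (qal A B p 1 * ((p : ℕ) : ℂ) ^ (-s)) * mu S μ₀ p j)) := by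
  obtain ⟨k1, k2⟩ := qal_add_mul hg s
  have hmu : ∀ j, mu S μ₀ p j = μ₀ p j := fun j => if_neg hS
  simp only [hmu]
  have e : ((p : ℕ) : ℂ) + 1 - (points A B p : ℂ) = ((p : ℕ) : ℂ) - ptsQ A B p := by
    unfold points ptsQ
    push_cast
    ring
  rw [← h4 p, k1, k2]
  unfold localFactor
  rw [e]

theorem log_ratio {μ₀ : ℕ → Fin n → ℂ} (h1 : ∀ p j, ‖μ₀ p j‖ = 1)
    (h4 : ∀ (p : ℕ) (x y : ℂ), (1 - (x + y) • ρ (σ p) + (x * y) • ρ (σ p) ^ 2).det =
        ∏ j, ((1 - x * μ₀ p j) * (1 - y * μ₀ p j))) (A B : ℤ) (p : Nat.Primes) :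
    0 < ratio S σ ρ A B p ∧ Real.log (ratio S σ ρ A B p) = fA (mu S μ₀) p (red (p : ℕ) ![A, B]) := by
  unfold ratio
  by_cases hb : IsBad S A B p
  · rw [if_pos hb, Real.log_one]
    refine ⟨one_pos, ?_⟩
    rcases hb with hS | hd
    · exact (fA_zero (fun j => if_pos hS) _).symm
    · exact (fA_bad (fun h => h ((good_iff _ _ _).1 hd)) _).symm
  · rw [if_neg hb]
    have hS : (p : ℕ) ∉ S := fun h => hb (Or.inl h)
    have hg : GoodQ A B p := fun h => hb (Or.inr ((good_iff _ _ _).2 h))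
    rw [local_eq hg hS h4 1, fA_eq hg (mu_le h1)]
    refine ⟨norm_pos_iff.2 (Finset.prod_ne_zero_iff.2 fun j _ => ?_), rfl⟩
    exact mul_ne_zero (pair_ne hg (mu_le h1 p j) 0) (pair_ne hg (mu_le h1 p j) 1)

theorem euler_eq {μ₀ : ℕ → Fin n → ℂ}
    (h4 : ∀ (p : ℕ) (x y : ℂ), (1 - (x + y) • ρ (σ p) + (x * y) • ρ (σ p) ^ 2).det =
        ∏ j, ((1 - x * μ₀ p j) * (1 - y * μ₀ p j))) (A B : ℤ) (s : ℂ) :
    eulerFactor S σ ρ A B s = Pool.Agent.X287.CR.fac Pool.Agent.X287.CR.pq (tq A B (mu S μ₀)) s := by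
  funext p
  rw [fac_tq]
  unfold eulerFactor
  by_cases hb : IsBad S A B p
  · rw [if_pos hb]
    symm
    rw [inv_eq_one]
    refine Finset.prod_eq_one fun j _ => ?_
    rcases hb with hS | hd
    · have : mu S μ₀ p j = 0 := if_pos hS
      rw [this]
      simp
    · have hg : ¬ GoodQ A B p := fun h => h ((good_iff _ _ _).1 hd)
      have h0 : ∀ i, qal A B p i = 0 := fun i => by
        unfold qal
        rw [if_neg hg]
      rw [h0, h0]
      simp
  · rw [if_neg hb]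
    have hS : (p : ℕ) ∉ S := fun h => hb (Or.inl h)
    have hg : GoodQ A B p := fun h => hb (Or.inr ((good_iff _ _ _).2 h))
    rw [local_eq hg hS h4 s]

theorem sum_abs {μ₀ : ℕ → Fin n → ℂ} (h1 : ∀ p j, ‖μ₀ p j‖ = 1)
    (h4 : ∀ (p : ℕ) (x y : ℂ), (1 - (x + y) • ρ (σ p) + (x * y) • ρ (σ p) ^ 2).det =
        ∏ j, ((1 - x * μ₀ p j) * (1 - y * μ₀ p j))) (E : ℤ × ℤ) (γ : ℝ) {T : ℝ} (hT : 0 < T) :
    Summable fun p : Nat.Primes => |weight γ (Real.log (p : ℕ) / T) * Real.log (ratio S σ ρ E.1 E.2 p)| := by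
  refine Summable.of_nonneg_of_le (fun _ => abs_nonneg _) (fun p => ?_) (wt_sum (γ := γ) hT (B := 8 * n) (by positivity))
  have hu : 0 ≤ Real.log (p : ℕ) / T := div_nonneg (Real.log_nonneg (by exact_mod_cast p.2.one_le)) hT.le
  rw [abs_mul, Pool.Agent.X278.OP.norm_Wt γ hu, (log_ratio h1 h4 E.1 E.2 p).2]
  have h1' : |weight γ (Real.log (p : ℕ) / T)| ≤ Pool.Agent.W189.ML.om (Real.log (p : ℕ) / T) := wr_le γ hu
  have h2 := fA_size (mu_le (S := S) h1) p (red (p : ℕ) ![E.1, E.2])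
  have h3 := Pool.Agent.W189.ML.om_nonneg hu
  calc _ ≤ Pool.Agent.W189.ML.om (Real.log (p : ℕ) / T) * (8 * n / √((p : ℕ) : ℝ)) := by gcongr
    _ = _ := by ring

theorem P_eq {μ₀ : ℕ → Fin n → ℂ} (h1 : ∀ p j, ‖μ₀ p j‖ = 1)
    (h4 : ∀ (p : ℕ) (x y : ℂ), (1 - (x + y) • ρ (σ p) + (x * y) • ρ (σ p) ^ 2).det =
        ∏ j, ((1 - x * μ₀ p j) * (1 - y * μ₀ p j))) (E : ℤ × ℤ) (γ : ℝ) {T : ℝ} (hT : 0 < T) :
    P S σ ρ γ T E = Real.exp (∑' p : Nat.Primes, weight γ (Real.log (p : ℕ) / T) *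
      Real.log (ratio S σ ρ E.1 E.2 p)) := by
  have hs := (sum_abs (S := S) h1 h4 E γ hT).of_abs
  have h2 : ∀ p : Nat.Primes, ratio S σ ρ E.1 E.2 p ^ weight γ (Real.log (p : ℕ) / T) =
      Real.exp (weight γ (Real.log (p : ℕ) / T) * Real.log (ratio S σ ρ E.1 E.2 p)) := by
    intro p
    rw [Real.rpow_def_of_pos (log_ratio h1 h4 _ _ p).1, mul_comm]
  have h3 : HasProd (fun p : Nat.Primes => Real.exp (weight γ (Real.log (p : ℕ) / T) *
      Real.log (ratio S σ ρ E.1 E.2 p))) (Real.exp (∑' p : Nat.Primes, weight γ (Real.log (p : ℕ) / T) *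
        Real.log (ratio S σ ρ E.1 E.2 p))) := by
    refine Real.hasProd_of_hasSum_log (fun p => Real.exp_pos _) ?_
    simp only [Real.log_exp]
    exact hs.hasSum
  unfold P
  rw [tprod_congr h2]
  exact h3.tprod_eq

theorem sum_range_zmod {n : ℕ} [NeZero n] (f : ZMod n → ℝ) : ∑ a ∈ Finset.range n, f (a : ZMod n) = ∑ a : ZMod n, f a := by
  refine Finset.sum_bij' (fun a _ => (a : ZMod n)) (fun a _ => a.val) (fun _ _ => Finset.mem_univ _)
    (fun a _ => Finset.mem_range.2 (ZMod.val_lt a)) (fun a ha => ZMod.val_cast_of_lt (Finset.mem_range.1 ha))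
    (fun a _ => ZMod.natCast_zmod_val a) (fun _ _ => rfl)

theorem localMean_eq {μ₀ : ℕ → Fin n → ℂ} (h1 : ∀ p j, ‖μ₀ p j‖ = 1)
    (h4 : ∀ (p : ℕ) (x y : ℂ), (1 - (x + y) • ρ (σ p) + (x * y) • ρ (σ p) ^ 2).det =
        ∏ j, ((1 - x * μ₀ p j) * (1 - y * μ₀ p j))) (p : Nat.Primes) (x : ℝ) :
    localMean S σ ρ p x = pA (mu S μ₀) p x := by
  have hp2 : (2 : ℝ) ≤ (p : ℕ) := by exact_mod_cast p.2.two_le
  have hp0 : (0 : ℝ) < (p : ℕ) := by linarith
  have h10 : ∑ j, eH j = 10 := by simp [eH]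
  have e1 : ∀ a b : ℕ, ratio S σ ρ (a : ℤ) (b : ℤ) p ^ x =
      Real.exp (x * fA (mu S μ₀) p ![(a : ZMod p), (b : ZMod p)]) := by
    intro a b
    obtain ⟨g1, g2⟩ := log_ratio (S := S) h1 h4 (a : ℤ) (b : ℤ) p
    rw [Real.rpow_def_of_pos g1, g2, mul_comm]
    congr 3
    funext j
    fin_cases j <;> simp [red]
  have e2 : ∑ a ∈ Finset.range p, ∑ b ∈ Finset.range p, ratio S σ ρ (a : ℤ) (b : ℤ) p ^ x =
      ∑ r : Fin 2 → ZMod p, Real.exp (x * fA (mu S μ₀) p r) := by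
    simp only [e1]
    rw [sum_range_zmod (n := (p : ℕ)) (fun a => ∑ b ∈ Finset.range p, Real.exp (x * fA (mu S μ₀) p ![a, (b : ZMod p)]))]
    have e3 : ∀ a : ZMod p, ∑ b ∈ Finset.range p, Real.exp (x * fA (mu S μ₀) p ![a, (b : ZMod p)]) =
        ∑ b : ZMod p, Real.exp (x * fA (mu S μ₀) p ![a, b]) := fun a =>
      sum_range_zmod (n := (p : ℕ)) (fun b => Real.exp (x * fA (mu S μ₀) p ![a, b]))
    simp only [e3]
    rw [← Fintype.sum_prod_type' (fun a b : ZMod p => Real.exp (x * fA (mu S μ₀) p ![a, b]))]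
    refine (Fintype.sum_equiv (finTwoArrowEquiv _) _ _ fun r => ?_).symm
    congr 3
    funext j
    fin_cases j <;> rfl
  unfold localMean pA ph Ex avg
  rw [e2, h10, Finset.sum_sub_distrib, Finset.sum_const, Finset.card_univ, Fintype.card_fun, Fintype.card_fin,
    ZMod.card, nsmul_eq_mul, mul_one]
  push_cast
  have h1 : (((p : ℕ) : ℝ) ^ 10)⁻¹ ≤ 1 / 2 := by
    rw [inv_le_comm₀ (by positivity) (by norm_num)]
    have : (2 : ℝ) ^ 1 ≤ ((p : ℕ) : ℝ) ^ 10 := (pow_le_pow_left₀ (by norm_num) hp2 1).trans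
      (pow_le_pow_right₀ (by linarith) (by norm_num))
    linarith
  have h2 : (1 : ℝ) - (((p : ℕ) : ℝ) ^ 10)⁻¹ ≠ 0 := by linarith
  rw [one_div]
  set ε : ℝ := (((p : ℕ) : ℝ) ^ 10)⁻¹ with hε
  set SS' : ℝ := ∑ r : Fin 2 → ZMod p, Real.exp (x * fA (mu S μ₀) p r) with hSS
  have h3 : (SS' - ((p : ℕ) : ℝ) ^ 2) / ((p : ℕ) : ℝ) ^ 2 = SS' / ((p : ℕ) : ℝ) ^ 2 - 1 := by
    field_simp
  rw [h3]
  field_simp
  ring

end

theorem mem_family {X : ℕ} {E : ℤ × ℤ} : E ∈ family X ↔ IsMinimal E.1 E.2 ∧ height E.1 E.2 ≤ X := by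
  classical
  unfold family
  rw [Finset.mem_filter, Finset.mem_product, Finset.mem_Icc, Finset.mem_Icc]
  refine ⟨fun h => h.2, fun h => ⟨?_, h⟩⟩
  obtain ⟨-, h2⟩ := h
  unfold height at h2
  have h3 := (le_max_left _ _).trans h2
  have h4 := (le_max_right _ _).trans h2
  have h5 : |E.1| ≤ |E.1| ^ 3 := by
    rcases eq_or_ne E.1 0 with h | h
    · rw [h]; simp
    · have : 1 ≤ |E.1| := Int.one_le_abs h
      nlinarith [sq_nonneg (|E.1|), mul_nonneg (abs_nonneg E.1) (sub_nonneg.2 this)]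
  have h6 : |E.2| ≤ E.2 ^ 2 := by
    rw [← sq_abs]
    rcases eq_or_ne E.2 0 with h | h
    · rw [h]; simp
    · have : 1 ≤ |E.2| := Int.one_le_abs h
      nlinarith
  have h7 : |E.1| ≤ X := by nlinarith [abs_nonneg E.1]
  have h8 : |E.2| ≤ X := by nlinarith [abs_nonneg E.2]
  exact ⟨abs_le.1 h7, abs_le.1 h8⟩

theorem family_eq (X : ℕ) : family X = (Fam eH ZH (abH X)).map (finTwoArrowEquiv ℤ).toEmbedding := by
  classical
  ext E
  rw [mem_family, Finset.mem_map_equiv]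
  unfold Fam
  rw [Finset.mem_filter, mem_Box]
  set x : Fin 2 → ℤ := (finTwoArrowEquiv ℤ).symm E with hx
  have hx0 : x 0 = E.1 := rfl
  have hx1 : x 1 = E.2 := rfl
  have hbox : (∀ j, |x j| ≤ ((abH X j : ℕ) : ℤ)) ↔ height E.1 E.2 ≤ X := by
    rw [Fin.forall_fin_two, hx0, hx1]
    unfold height abH
    simp only [Matrix.cons_val_zero, Matrix.cons_val_one]
    rw [max_le_iff]
    have h1 : |E.1| ≤ ((aH X : ℕ) : ℤ) ↔ 4 * |E.1| ^ 3 ≤ (X : ℤ) := by
      rw [Int.abs_eq_natAbs, Int.ofNat_le, le_aH]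
      norm_cast
    have h2 : |E.2| ≤ ((bH X : ℕ) : ℤ) ↔ 27 * E.2 ^ 2 ≤ (X : ℤ) := by
      rw [← sq_abs E.2, Int.abs_eq_natAbs, Int.ofNat_le, le_bH]
      norm_cast
    rw [h1, h2]
  have hmin : (Min eH x ∧ ¬ ZH x) ↔ IsMinimal E.1 E.2 := by
    unfold Pool.Agent.X278.AV.Min ZH IsMinimal
    rw [hx0, hx1]
    constructor
    · rintro ⟨h1, h2⟩
      refine ⟨h2, fun p hp h3 => h1 p hp ?_⟩
      rw [Fin.forall_fin_two]
      exact h3
    · rintro ⟨h1, h2⟩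
      refine ⟨fun p hp h3 => h2 p hp ?_, h1⟩
      rw [Fin.forall_fin_two] at h3
      exact h3
  rw [hbox, hmin, and_comm]

theorem average_eq (X : ℕ) (f : ℤ × ℤ → ℝ) :
    average X f = mean (Fam eH ZH (abH X)) (fun x => f (finTwoArrowEquiv ℤ x)) := by
  unfold average mean
  rw [family_eq, Finset.sum_map, Finset.card_map]
  rfl

theorem family_nonempty : ∀ᶠ X : ℕ in atTop, (family X).Nonempty := by
  filter_upwards [fam_ne dataH] with X hX
  rw [family_eq]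
  simpa using hX


section

variable {F : Type} [Field F] [NumberField F] {n : ℕ}

theorem P_growth {S : Finset ℕ} {σ : ℕ → Gal(F/ℚ)} {ρ : Gal(F/ℚ) →* Matrix (Fin n) (Fin n) ℂ}
    {μ₀ : ℕ → Fin n → ℂ} (h1 : ∀ p j, ‖μ₀ p j‖ = 1)
    (h4 : ∀ (p : ℕ) (x y : ℂ), (1 - (x + y) • ρ (σ p) + (x * y) • ρ (σ p) ^ 2).det =
        ∏ j, ((1 - x * μ₀ p j) * (1 - y * μ₀ p j))) {γ : ℝ} (hγ : Real.pi / 2 < γ) (E : ℤ × ℤ) {L : ℂ → ℂ}
    (hL : ∀ s : ℂ, 3 / 2 < s.re → HasProd (eulerFactor S σ ρ E.1 E.2 s) (L s))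
    (hm : ∀ x : ℝ, 1 ≤ x → x ≤ 3 / 2 → MeromorphicAt L (x : ℂ)) :
    ∃ m : ℤ, meromorphicOrderAt L 1 = m ∧ ∃ c C : ℝ, 0 < c ∧ ∀ᶠ T : ℝ in atTop,
      c * T ^ m ≤ P S σ ρ γ T E ∧ P S σ ρ γ T E ≤ C * T ^ m := by
  obtain ⟨m, h5, B, h6⟩ := SA_growth E.1 E.2 (mu_le (S := S) h1) (F := L)
    (fun s hs => by rw [← euler_eq (S := S) h4]; exact hL s hs) hm hγ
  refine ⟨m, h5, Real.exp (-B), Real.exp B, Real.exp_pos _, ?_⟩
  filter_upwards [h6, eventually_gt_atTop (0 : ℝ)] with T h3 hT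
  have h7 : (SA E.1 E.2 (mu S μ₀) γ T).re =
      ∑' p : Nat.Primes, weight γ (Real.log (p : ℕ) / T) * Real.log (ratio S σ ρ E.1 E.2 p) := by
    unfold SA
    have hsC : Summable fun p : Nat.Primes => ((fA (mu S μ₀) p (red p ![E.1, E.2]) : ℝ) : ℂ) *
        Pool.Agent.X278.OP.Wt γ (Real.log (p : ℕ) / T) := by
      refine Summable.of_norm (Summable.of_nonneg_of_le (fun _ => norm_nonneg _) (fun p => ?_)
        (wt_sum (γ := γ) hT (B := 8 * n) (by positivity)))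
      rw [norm_mul, Complex.norm_real, Real.norm_eq_abs]
      have h2 := fA_size (mu_le (S := S) h1) p (red (p : ℕ) ![E.1, E.2])
      gcongr
    rw [Complex.re_tsum hsC]
    refine tsum_congr fun p => ?_
    rw [Complex.re_ofReal_mul, re_Wt, (log_ratio h1 h4 _ _ p).2]
    unfold weight
    ring
  have h8 : |(SA E.1 E.2 (mu S μ₀) γ T).re - m * Real.log T| ≤ B := by
    have e1 : (SA E.1 E.2 (mu S μ₀) γ T).re - m * Real.log T = (SA E.1 E.2 (mu S μ₀) γ T - m * Real.log T).re := by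
      rw [Complex.sub_re]
      congr 1
      have : ((m : ℤ) : ℂ) = ((m : ℝ) : ℂ) := by push_cast; rfl
      rw [this, Complex.re_ofReal_mul, Complex.ofReal_re]
    rw [e1]
    exact (Complex.abs_re_le_norm _).trans h3
  have e7 : T ^ m = Real.exp (m * Real.log T) := by
    rw [← Real.rpow_intCast, Real.rpow_def_of_pos hT]
    congr 1
    ring
  rw [P_eq h1 h4 E γ hT, ← h7, e7, ← Real.exp_add, ← Real.exp_add]
  obtain ⟨h9, h10⟩ := abs_le.1 h8
  constructor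
  · apply Real.exp_le_exp.2
    linarith
  · apply Real.exp_le_exp.2
    linarith

theorem trace_conj (ρ : Gal(F/ℚ) →* Matrix (Fin n) (Fin n) ℂ) (g h : Gal(F/ℚ)) :
    (ρ (h⁻¹ * g * h)).trace = (ρ g).trace := by
  rw [map_mul, map_mul, Matrix.trace_mul_cycle, ← map_mul, mul_inv_cancel, map_one, one_mul]

theorem second_pos (ρ : Gal(F/ℚ) →* Matrix (Fin n) (Fin n) ℂ) (hn : 0 < n) : 0 < second ρ := by
  unfold second
  have hG : (0 : ℝ) < Nat.card Gal(F/ℚ) := by exact_mod_cast Nat.card_pos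
  apply div_pos _ hG
  have h1 : ((ρ 1).trace).re ^ 2 ≤ ∑ g : Gal(F/ℚ), ((ρ g).trace).re ^ 2 :=
    Finset.single_le_sum (f := fun g => ((ρ g).trace).re ^ 2) (fun g _ => sq_nonneg _) (Finset.mem_univ 1)
  rw [map_one, Matrix.trace_one, Fintype.card_fin] at h1
  have h2 : (0 : ℝ) < n := by exact_mod_cast hn
  have h3 : ((n : ℂ)).re = n := Complex.natCast_re n
  rw [h3] at h1
  nlinarith

/-- the values for irreducible representations -/
theorem second_eq {ρ : Gal(F/ℚ) →* Matrix (Fin n) (Fin n) ℂ} (h : Irr ρ) :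
    second ρ = (1 + (∑ g : Gal(F/ℚ), (ρ g).trace ^ 2).re / Nat.card Gal(F/ℚ)) / 2 := by
  have hG : (0 : ℝ) < Nat.card Gal(F/ℚ) := by exact_mod_cast Nat.card_pos
  have hk : Nat.card Gal(F/ℚ) ≠ 0 := Nat.card_pos.ne'
  have h1 := norm_mean h
  have h2 : ∀ g : Gal(F/ℚ), (ρ g).trace * (ρ g⁻¹).trace = ((‖(ρ g).trace‖ ^ 2 : ℝ) : ℂ) := by
    intro g
    have hfin : ρ g ^ Nat.card Gal(F/ℚ) = 1 := by rw [← map_pow, pow_card_eq_one', map_one]
    rw [trace_inv hk hfin (rho_inv ρ g).1, Complex.mul_conj, Complex.normSq_eq_norm_sq]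
  simp only [h2] at h1
  have h3 : ∑ g : Gal(F/ℚ), ‖(ρ g).trace‖ ^ 2 = Nat.card Gal(F/ℚ) := by
    rw [Nat.card_eq_fintype_card]
    exact_mod_cast h1
  have h4 : ∀ g : Gal(F/ℚ), ((ρ g).trace).re ^ 2 = (((ρ g).trace ^ 2).re + ‖(ρ g).trace‖ ^ 2) / 2 := by
    intro g
    rw [← Complex.normSq_eq_norm_sq, Complex.normSq_apply, sq (ρ g).trace, Complex.mul_re]
    ring
  unfold second
  simp only [h4]
  rw [← Finset.sum_div, Finset.sum_add_distrib, h3, ← Complex.re_sum]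
  field_simp
  ring

end

/-- **Moments over all elliptic curves of the smooth products of an Artin twist.** -/
theorem result (γ : ℝ) (hγ : Real.pi / 2 < γ) (F : Type) [Field F] [NumberField F] [IsGalois ℚ F] (n : ℕ)
    (ρ : Gal(F/ℚ) →* Matrix (Fin n) (Fin n) ℂ) (S : Finset ℕ) (σ : ℕ → Gal(F/ℚ))
    (hσ : ∀ p : ℕ, p.Prime → p ∉ S → IsFrobenius p (σ p)) :
    -- absolute convergence of the products
    (∀ (E : ℤ × ℤ) (T : ℝ), 0 < T → (∀ p : Nat.Primes, 0 < ratio S σ ρ E.1 E.2 p) ∧ Summable fun p : Nat.Primes =>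
      |weight γ (Real.log (p : ℕ) / T) * Real.log (ratio S σ ρ E.1 E.2 p)|) ∧
    -- A. the order of vanishing for a single curve
    (∀ E : ℤ × ℤ, 4 * E.1 ^ 3 + 27 * E.2 ^ 2 ≠ 0 → ∀ L : ℂ → ℂ,
      (∀ s : ℂ, 3 / 2 < s.re → HasProd (eulerFactor S σ ρ E.1 E.2 s) (L s)) →
      (∀ x : ℝ, 1 ≤ x → x ≤ 3 / 2 → MeromorphicAt L (x : ℂ)) →
      ∃ m : ℤ, meromorphicOrderAt L 1 = m ∧ ∃ c C : ℝ, 0 < c ∧ ∀ᶠ T : ℝ in atTop,
        c * T ^ m ≤ P S σ ρ γ T E ∧ P S σ ρ γ T E ≤ C * T ^ m) ∧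
    -- B. the moments for fixed `T`
    (∀ k T : ℝ, 0 < T → Tendsto (fun X : ℕ => average X fun E => P S σ ρ γ T E ^ k) atTop (𝓝 (M S σ ρ γ k T))) ∧
    -- C. their growth
    (∀ k : ℝ, Tendsto (fun T : ℝ => Real.log (M S σ ρ γ k T) / Real.log T) atTop
      (𝓝 ((k * schur ρ + k ^ 2 * second ρ) / 2))) ∧
    -- D. almost all curves
    (0 < n → 0 < second ρ ∧ ∀ δ η : ℝ, 0 < δ → 0 < η → ∀ᶠ T : ℝ in atTop, ∀ᶠ X : ℕ in atTop,
      (exceptions S σ ρ γ T δ X : ℝ) ≤ T ^ (-(δ ^ 2 / (2 * second ρ)) + η) * (family X).card) ∧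
    -- E. the three types of irreducible representations: not self-dual, orthogonal, symplectic
    (IsIrreducible ρ →
      ((∀ Y, IsInvariant ρ Y → Y = 0) → schur ρ = 0 ∧ second ρ = 1 / 2) ∧
      (∀ Y, IsInvariant ρ Y → IsUnit Y.det → Yᵀ = Y → schur ρ = 1 ∧ second ρ = 1) ∧
      (∀ Y, IsInvariant ρ Y → IsUnit Y.det → Yᵀ = -Y → schur ρ = -1 ∧ second ρ = 1)) := by
  classical
  obtain ⟨μ₀, h1, h2, h3, h4⟩ := eig_all σ ρ
  have hμ := mu_le (S := S) h1
  have hPpos : ∀ (T : ℝ), 0 < T → ∀ E, 0 < P S σ ρ γ T E := fun T hT E => by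
    rw [P_eq h1 h4 E γ hT]
    exact Real.exp_pos _
  have hM : ∀ k T : ℝ, M S σ ρ γ k T = ∏' p : Nat.Primes, pA (mu S μ₀) p (k * wr γ (Real.log (p : ℕ) / T)) := by
    intro k T
    unfold M
    exact tprod_congr fun p => localMean_eq h1 h4 p _
  have hB : ∀ k T : ℝ, 0 < T → Tendsto (fun X : ℕ => average X fun E => P S σ ρ γ T E ^ k) atTop
      (𝓝 (M S σ ρ γ k T)) := by
    intro k T hT
    have g1 := mean_A hμ γ k hT
    rw [← hM] at g1
    refine g1.congr fun X => ?_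
    rw [average_eq]
    unfold mean
    congr 1
    refine Finset.sum_congr rfl fun x _ => ?_
    beta_reduce
    rw [P_eq h1 h4 _ γ hT, ← Real.exp_mul, mul_comm k]
    congr 2
    refine tsum_congr fun p => ?_
    rw [(log_ratio h1 h4 _ _ p).2]
    congr 2
    funext j
    fin_cases j <;> rfl
  -- the mean values over the primes
  have m1 : Tendsto (Pool.Agent.W401.Cheb.M (ext0 fun p => ∑ j, (mu S μ₀ p j ^ 2).re)) atTop (𝓝 (schur ρ)) := by
    refine class_mean (f := fun g => ((ρ (g ^ 2)).trace).re) (fun g h => ?_) S σ hσ (fun p hp hpS => ?_)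
    · have e1 : (h⁻¹ * g * h) ^ 2 = h⁻¹ * g ^ 2 * h := by simp [sq, mul_assoc]
      simp only [e1, trace_conj]
    · rw [show ext0 (fun p => ∑ j, (mu S μ₀ p j ^ 2).re) p = ∑ j, (mu S μ₀ ⟨p, hp⟩ j ^ 2).re from ext0_prime _ ⟨p, hp⟩]
      show _ = ((ρ (σ p ^ 2)).trace).re
      rw [h3, Complex.re_sum]
      refine Finset.sum_congr rfl fun j _ => ?_
      have : mu S μ₀ ⟨p, hp⟩ j = μ₀ p j := if_neg hpS
      rw [this]
  have m2 : Tendsto (Pool.Agent.W401.Cheb.M (ext0 fun p => mA (mu S μ₀) p ^ 2)) atTop (𝓝 (second ρ)) := by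
    refine class_mean (f := fun g => ((ρ g).trace).re ^ 2) (fun g h => ?_) S σ hσ (fun p hp hpS => ?_)
    · simp only [trace_conj]
    · rw [show ext0 (fun p => mA (mu S μ₀) p ^ 2) p = mA (mu S μ₀) ⟨p, hp⟩ ^ 2 from ext0_prime _ ⟨p, hp⟩]
      show _ = ((ρ (σ p)).trace).re ^ 2
      rw [h2, Complex.re_sum]
      congr 1
      unfold mA
      refine Finset.sum_congr rfl fun j _ => ?_
      have : mu S μ₀ ⟨p, hp⟩ j = μ₀ p j := if_neg hpS
      rw [this]
  have hC : ∀ k : ℝ, (∀ T : ℝ, 0 < T → 0 < M S σ ρ γ k T) ∧ Tendsto (fun T : ℝ => Real.log (M S σ ρ γ k T) / Real.log T)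
      atTop (𝓝 ((k * schur ρ + k ^ 2 * second ρ) / 2)) := by
    intro k
    obtain ⟨g1, g2⟩ := log_A hμ m1 m2 γ k
    simp only [← hM] at g1 g2
    refine ⟨g1, ?_⟩
    have e1 : schur ρ / 2 * k + second ρ / 2 * k ^ 2 = (k * schur ρ + k ^ 2 * second ρ) / 2 := by ring
    rw [e1] at g2
    exact g2
  refine ⟨fun E T hT => ⟨fun p => (log_ratio h1 h4 _ _ p).1, sum_abs h1 h4 E γ hT⟩, ?_, hB, fun k => (hC k).2, ?_, ?_⟩
  · intro E _ L hL hm
    exact P_growth h1 h4 hγ E hL hm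
  · intro hn
    have hv := second_pos ρ hn
    refine ⟨hv, fun δ η hδ hη => ?_⟩
    set v : ℝ := second ρ with hvd
    set ε : ℝ := schur ρ with hεd
    have hlim : ∀ k : ℝ, ∀ᶠ T : ℝ in atTop, M S σ ρ γ k T < T ^ ((k * ε + k ^ 2 * v) / 2 + η / 2) := by
      intro k
      obtain ⟨g1, g2⟩ := hC k
      have g3 := g2.eventually_lt_const (u := (k * ε + k ^ 2 * v) / 2 + η / 2) (by linarith)
      filter_upwards [g3, eventually_gt_atTop (1 : ℝ)] with T g4 hT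
      have hT0 : 0 < T := by linarith
      have hlog : 0 < Real.log T := Real.log_pos hT
      rw [div_lt_iff₀ hlog] at g4
      rw [Real.rpow_def_of_pos hT0, ← Real.log_lt_iff_lt_exp (g1 T hT0), mul_comm]
      exact g4
    set k : ℝ := δ / v with hk
    have hk0 : 0 < k := div_pos hδ hv
    have hT2 : ∀ᶠ T : ℝ in atTop, 2 < T ^ (η / 2) := (tendsto_rpow_atTop (by positivity)).eventually_gt_atTop 2
    filter_upwards [hlim k, hlim (-k), eventually_gt_atTop (1 : ℝ), hT2] with T g3 g4 hT1 hT2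
    have hT : 0 < T := by linarith
    have hlog : 0 < Real.log T := Real.log_pos hT1
    have k1 := (hB k T hT).eventually_lt_const g3
    have k2 := (hB (-k) T hT).eventually_lt_const g4
    filter_upwards [k1, k2, family_nonempty] with X k3 k4 k5
    have hcard : (0 : ℝ) < (family X).card := by exact_mod_cast k5.card_pos
    unfold average at k3 k4
    rw [div_lt_iff₀ hcard] at k3 k4
    set S₁ := (family X).filter fun E => δ ≤ Real.log (P S σ ρ γ T E) / Real.log T - ε / 2 with hS₁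
    set S₂ := (family X).filter fun E => δ ≤ -(Real.log (P S σ ρ γ T E) / Real.log T - ε / 2) with hS₂
    have hcov : ((family X).filter fun E => δ ≤ |Real.log (P S σ ρ γ T E) / Real.log T - ε / 2|) ⊆ S₁ ∪ S₂ := by
      intro E hE
      rw [Finset.mem_filter] at hE
      rw [Finset.mem_union, hS₁, hS₂, Finset.mem_filter, Finset.mem_filter]
      rcases le_abs.1 hE.2 with h | h
      · exact Or.inl ⟨hE.1, h⟩
      · exact Or.inr ⟨hE.1, h⟩
    have b1 : (S₁.card : ℝ) * T ^ (k * (ε / 2 + δ)) ≤ ∑ E ∈ family X, P S σ ρ γ T E ^ k := by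
      have g1 : ∀ E ∈ S₁, T ^ (k * (ε / 2 + δ)) ≤ P S σ ρ γ T E ^ k := by
        intro E hE
        rw [hS₁, Finset.mem_filter] at hE
        have g2 : (ε / 2 + δ) * Real.log T ≤ Real.log (P S σ ρ γ T E) := by
          have := hE.2
          rw [le_sub_iff_add_le, le_div_iff₀ hlog] at this
          linarith
        rw [Real.rpow_def_of_pos hT, Real.rpow_def_of_pos (hPpos T hT E)]
        apply Real.exp_le_exp.2
        nlinarith
      calc (S₁.card : ℝ) * T ^ (k * (ε / 2 + δ)) = ∑ _E ∈ S₁, T ^ (k * (ε / 2 + δ)) := by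
            rw [Finset.sum_const, nsmul_eq_mul]
        _ ≤ ∑ E ∈ S₁, P S σ ρ γ T E ^ k := Finset.sum_le_sum g1
        _ ≤ _ := Finset.sum_le_sum_of_subset_of_nonneg (Finset.filter_subset _ _)
            fun E _ _ => Real.rpow_nonneg (hPpos T hT E).le _
    have b2 : (S₂.card : ℝ) * T ^ (-(k * (ε / 2 - δ))) ≤ ∑ E ∈ family X, P S σ ρ γ T E ^ (-k) := by
      have g1 : ∀ E ∈ S₂, T ^ (-(k * (ε / 2 - δ))) ≤ P S σ ρ γ T E ^ (-k) := by
        intro E hE
        rw [hS₂, Finset.mem_filter] at hE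
        have g2 : Real.log (P S σ ρ γ T E) ≤ (ε / 2 - δ) * Real.log T := by
          have := hE.2
          have g3 : Real.log (P S σ ρ γ T E) / Real.log T ≤ ε / 2 - δ := by linarith
          rwa [div_le_iff₀ hlog] at g3
        rw [Real.rpow_def_of_pos hT, Real.rpow_def_of_pos (hPpos T hT E)]
        apply Real.exp_le_exp.2
        nlinarith
      calc (S₂.card : ℝ) * T ^ (-(k * (ε / 2 - δ))) = ∑ _E ∈ S₂, T ^ (-(k * (ε / 2 - δ))) := by
            rw [Finset.sum_const, nsmul_eq_mul]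
        _ ≤ ∑ E ∈ S₂, P S σ ρ γ T E ^ (-k) := Finset.sum_le_sum g1
        _ ≤ _ := Finset.sum_le_sum_of_subset_of_nonneg (Finset.filter_subset _ _)
            fun E _ _ => Real.rpow_nonneg (hPpos T hT E).le _
    have hkv : k * v = δ := by rw [hk]; field_simp
    have hexp : δ ^ 2 / (2 * v) = k * δ / 2 := by
      rw [hk]
      field_simp
    have c1 : (S₁.card : ℝ) ≤ T ^ (-(δ ^ 2 / (2 * v)) + η / 2) * (family X).card := by
      have g1 := b1.trans k3.le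
      have g2 : 0 < T ^ (k * (ε / 2 + δ)) := Real.rpow_pos_of_pos hT _
      rw [← le_div_iff₀ g2] at g1
      refine g1.trans (le_of_eq ?_)
      have g3 : T ^ (-(δ ^ 2 / (2 * v)) + η / 2) = T ^ ((k * ε + k ^ 2 * v) / 2 + η / 2) / T ^ (k * (ε / 2 + δ)) := by
        rw [← Real.rpow_sub hT]
        congr 1
        rw [hexp, ← hkv]
        ring
      rw [g3]
      ring
    have c2 : (S₂.card : ℝ) ≤ T ^ (-(δ ^ 2 / (2 * v)) + η / 2) * (family X).card := by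
      have g1 := b2.trans k4.le
      have g2 : 0 < T ^ (-(k * (ε / 2 - δ))) := Real.rpow_pos_of_pos hT _
      rw [← le_div_iff₀ g2] at g1
      refine g1.trans (le_of_eq ?_)
      have g3 : T ^ (-(δ ^ 2 / (2 * v)) + η / 2) =
          T ^ ((-k * ε + (-k) ^ 2 * v) / 2 + η / 2) / T ^ (-(k * (ε / 2 - δ))) := by
        rw [← Real.rpow_sub hT]
        congr 1
        rw [hexp, ← hkv]
        ring
      rw [g3]
      ring
    have d1 : (exceptions S σ ρ γ T δ X : ℝ) ≤ (S₁.card : ℝ) + S₂.card := by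
      have e1 : {E : ℤ × ℤ | E ∈ family X ∧ δ ≤ |Real.log (P S σ ρ γ T E) / Real.log T - ε / 2|} =
          (((family X).filter fun E => δ ≤ |Real.log (P S σ ρ γ T E) / Real.log T - ε / 2| : Finset (ℤ × ℤ)) :
            Set (ℤ × ℤ)) := by
        ext E
        rw [Finset.mem_coe, Finset.mem_filter, Set.mem_ofPred_eq]
      unfold exceptions
      rw [← hεd, e1, Set.ncard_coe_finset]
      exact_mod_cast (Finset.card_le_card hcov).trans (Finset.card_union_le _ _)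
    have f1 : T ^ (-(δ ^ 2 / (2 * v)) + η) = T ^ (-(δ ^ 2 / (2 * v)) + η / 2) * T ^ (η / 2) := by
      rw [← Real.rpow_add hT]
      congr 1
      ring
    have f2 : 0 < T ^ (-(δ ^ 2 / (2 * v)) + η / 2) := Real.rpow_pos_of_pos hT _
    rw [f1]
    have f3 : T ^ (-(δ ^ 2 / (2 * v)) + η / 2) * 2 ≤ T ^ (-(δ ^ 2 / (2 * v)) + η / 2) * T ^ (η / 2) :=
      mul_le_mul_of_nonneg_left hT2.le f2.le
    have f4 := mul_le_mul_of_nonneg_right f3 hcard.le
    linarith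
  · intro hirr
    have hI : Irr ρ := hirr
    have hG : (0 : ℝ) < Nat.card Gal(F/ℚ) := by exact_mod_cast Nat.card_pos
    have hsch : schur ρ = (∑ g : Gal(F/ℚ), (ρ (g ^ 2)).trace).re / Nat.card Gal(F/ℚ) := by
      unfold schur
      rw [Complex.re_sum]
    refine ⟨fun h0 => ?_, fun Y hY hu hT => ?_, fun Y hY hu hT => ?_⟩
    · obtain ⟨a1, a2⟩ := no_form (ρ := ρ) h0
      rw [hsch, second_eq hI, a1, a2]
      simp
    · obtain ⟨a1, a2⟩ := one_form hI hY hu (c := 1) (by rw [one_smul]; exact hT)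
      rw [hsch, second_eq hI, a1, a2, ← Nat.card_eq_fintype_card]
      constructor
      · rw [one_mul, Complex.natCast_re, div_self hG.ne']
      · rw [Complex.natCast_re, div_self hG.ne']
        norm_num
    · obtain ⟨a1, a2⟩ := one_form hI hY hu (c := -1) (by rw [neg_smul, one_smul]; exact hT)
      rw [hsch, second_eq hI, a1, a2, ← Nat.card_eq_fintype_card]
      constructor
      · rw [neg_one_mul, Complex.neg_re, Complex.natCast_re, neg_div, div_self hG.ne']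
      · rw [Complex.natCast_re, div_self hG.ne']
        norm_num

end Pool.Agent.Results.MP_775b3b_nt.ArtinTwistMoments
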