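import Mathlib
import Pool.Agent.N873.MF.Tr
import Pool.Agent.N873.MF.CHR
import Pool.Agent.N873.MF.ISO

/-!
# The characters of a real multiquadratic field in the Mordell-Weil groups of the twists of many elliptic
curves: the joint law

Let `F` be a finite set of pairs `(a, b)` of coprime integers, `a` odd, `b ≠ 0` even. For `c = (a, b)` and `n ≥ 1` let
`W n c : y² = (x + 3 n (a² + b²)) (x - 3 n (2 a² - b²)) (x - 3 n (2 b² - a²))`, which is isomorphic to
`y² = x (x - n a²) (x - n b²)`, the quadratic twist by `-n` of `y² = x (x + a²) (x + b²)` (a curve with a rational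
subgroup `Z/2 x Z/4`). The `n` are those of the set `N F` of positive lower density: squarefree, `3` modulo `8`,
for all the pairs of `F`, `-n` is not a nonzero square modulo the odd primes dividing `a b` and `n` is not one
modulo the odd primes dividing `a² - b²`.

Let `K = ℚ(√d_1, …, √d_r)` be a real field of degree `2 ^ r`, the `d_i` squarefree, `1` modulo `8` and nonzero
squares modulo all these primes (`Disc F`; there are such fields for all `r`), `G = Gal(K/ℚ)`. The irreducible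
representations of `G` are the `2 ^ r` characters `χ : G → {±1}`; `χ` is `χ_T` for exactly one set `T`,
`σ(∏_{i ∈ T} √d_i) = χ_T(σ) ∏_{i ∈ T} √d_i`; `mult K n c χ` is the multiplicity of `χ` in `W(K) ⊗ ℂ`, `W = W n c`. Call `χ_T`
trivial for `n` if the quadratic twist of `W n c` by `χ_T` has finitely many rational points and no element of
2-power order in `Ш`. This does not depend on `c`, and it implies `mult K n c χ_T = 0` for all the pairs of `F`.

(1) *The joint law.* For every set `V` of characters the `n` such that `V` is the set of the characters which are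
trivial for `n` have in `N F` the natural density `η ^ #V (1 - η) ^ (2 ^ r - #V)`, `η = ∏ (1 - 2^(-i)) = 0.288…`: the
`2 ^ r` characters behave like independent ones, whatever the curves; the number of the trivial characters has
the binomial law.
(2) For the `n` of density `η ^ 2 ^ r` such that all the characters are trivial all the multiplicities `m_ρ` of
all the curves of `F` are zero.

Parts by helpers 97, 136, 273, 314, 368, 482, 519, 588, 603, 614, 615, 700, 747, 756, 767, 776, 873, 887, 891, 966, 973;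
the joint law of the class groups is due to helper856 and his coauthors (`Pool/Agent/N856/JM`, `JT`).
-/

set_option autoImplicit false

open NumberField Filter Topology

namespace Pool.Agent.Results.MP_775b3b_nt.PatternsOfCharacters

open Pool.Agent.TH841.SH.D (Sha)

/-- the pairs -/
def Pair (c : ℤ × ℤ) : Prop := IsCoprime c.1 c.2 ∧ Odd c.1 ∧ Even c.2 ∧ c.2 ≠ 0

/-- `m` is a nonzero square modulo `p` -/
def NzSq (p : ℕ) (m : ℤ) : Prop := (m : ZMod p) ≠ 0 ∧ IsSquare (m : ZMod p)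

/-- the numbers of the twists -/
def N (F : Finset (ℤ × ℤ)) (n : ℕ) : Prop := Squarefree n ∧ n % 8 = 3 ∧
  ∀ c ∈ F, ∀ p : ℕ, p.Prime → p ≠ 2 → ((p : ℤ) ∣ c.1 * c.2 → ¬ NzSq p (-n)) ∧
    ((p : ℤ) ∣ c.1 ^ 2 - c.2 ^ 2 → ¬ NzSq p n)

/-- the discriminants -/
def Disc (F : Finset (ℤ × ℤ)) (d : ℕ) : Prop := Squarefree d ∧ d % 8 = 1 ∧
  ∀ c ∈ F, ∀ p : ℕ, p.Prime → p ≠ 2 → ((p : ℤ) ∣ c.1 * c.2 ∨ (p : ℤ) ∣ c.1 ^ 2 - c.2 ^ 2) → NzSq p d

/-- the coefficient `A` of `y² = x³ + A x + B` -/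
def A (n : ℤ) (c : ℤ × ℤ) : ℤ := -27 * (c.1 ^ 4 - c.1 ^ 2 * c.2 ^ 2 + c.2 ^ 4) * n ^ 2

/-- the coefficient `B` of `y² = x³ + A x + B` -/
def B (n : ℤ) (c : ℤ × ℤ) : ℤ :=
  27 * (c.1 ^ 2 + c.2 ^ 2) * (2 * c.1 ^ 2 - c.2 ^ 2) * (2 * c.2 ^ 2 - c.1 ^ 2) * n ^ 3

/-- the curve over `ℚ` -/
def W (n : ℤ) (c : ℤ × ℤ) : WeierstrassCurve ℚ := ⟨0, 0, 0, (A n c : ℚ), (B n c : ℚ)⟩

/-- the group of the points over `K` -/
abbrev Pts (K : Type) [Field K] [Algebra ℚ K] (n : ℤ) (c : ℤ × ℤ) : Type :=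
  ((W n c).baseChange K).toAffine.Point

open Classical in
/-- the isotypic part: the points `P` over `K` with `σ(P) = χ(σ) P` for all `σ` in the Galois group -/
noncomputable def Isotypic (K : Type) [Field K] [Algebra ℚ K] (n : ℤ) (c : ℤ × ℤ)
    (χ : (K ≃ₐ[ℚ] K) →* ℤˣ) : AddSubgroup (Pts K n c) :=
  ⨅ σ : K ≃ₐ[ℚ] K, AddMonoidHom.ker (WeierstrassCurve.Affine.Point.map (W' := (W n c).toAffine)
    (σ : K →ₐ[ℚ] K) - ((χ σ : ℤˣ) : ℤ) • AddMonoidHom.id (Pts K n c))

open Classical in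
/-- the multiplicity of `χ` in `W(K) ⊗ ℂ` -/
noncomputable def mult (K : Type) [Field K] [Algebra ℚ K] (n : ℤ) (c : ℤ × ℤ)
    (χ : (K ≃ₐ[ℚ] K) →* ℤˣ) : ℕ := Module.finrank ℤ (Isotypic K n c χ)

/-- `ℚ(√d_1, …, √d_r)` has degree `2 ^ r` -/
def Independent {r : ℕ} (d : Fin r → ℕ) : Prop :=
  ∀ T : Finset (Fin r), T.Nonempty → ¬ IsSquare (∏ i ∈ T, d i)

/-- `K = ℚ(x_1, …, x_r)`, `x_i = √d_i` -/
def IsField {r : ℕ} (d : Fin r → ℕ) (K : Type) [Field K] [NumberField K] (x : Fin r → K) : Prop :=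
  (∀ i, x i ^ 2 = (d i : K)) ∧ IntermediateField.adjoin ℚ (Set.range x) = ⊤

/-- `χ = χ_T` -/
def IsChar {r : ℕ} {K : Type} [Field K] [Algebra ℚ K] (x : Fin r → K) (T : Finset (Fin r))
    (χ : (K ≃ₐ[ℚ] K) →* ℤˣ) : Prop :=
  ∀ σ : K ≃ₐ[ℚ] K, σ (∏ i ∈ T, x i) = (((χ σ : ℤˣ) : ℤ) : K) * ∏ i ∈ T, x i

/-- the index `T` (the character `χ_T`) is trivial for `n`: the twist of `W n c` by `χ_T`, which is the curve
`W (n ∏_{i ∈ T} d_i) c`, has finitely many rational points and no element of 2-power order in `Ш` -/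
def Triv {r : ℕ} (d : Fin r → ℕ) (n : ℕ) (c : ℤ × ℤ) (T : Finset (Fin r)) : Prop :=
  Finite (W ((n * ∏ i ∈ T, d i : ℕ) : ℤ) c).toAffine.Point ∧
  ∀ (k : ℕ) (x : Sha (W ((n * ∏ i ∈ T, d i : ℕ) : ℤ) c)), (2 ^ k : ℕ) • x = 0 → x = 0

/-- the limit `(1 - 1/2) (1 - 1/4) (1 - 1/8) ⋯` -/
noncomputable def eta : ℝ := ∏' i : ℕ, (1 - (1 / 2 : ℝ) ^ (i + 1))

open Classical in
/-- the number of the `m ≤ X` with the property `P` -/
noncomputable def count (P : ℕ → Prop) (X : ℕ) : ℕ := ((Finset.Icc 1 X).filter fun m => P m).card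

/-- among the numbers with the property `P`, those with the property `Q` have natural density `δ` -/
def HasDensity (P Q : ℕ → Prop) (δ : ℝ) : Prop :=
  Tendsto (fun X : ℕ => (count (fun m => P m ∧ Q m) X : ℝ) / (count P X : ℝ)) atTop (𝓝 δ)

section proof

open Pool.Agent.N873.UT (NF Pr Adm parts2)
open Pool.Agent.N873.MF (Dc Gd EK cA cB WQ parts gd_iff triv_prod nf_prod pos_prod dens_pat
  TrivW t_CHR t_ISO disc)
open Pool.Agent.N969.P15 (Qc)
open Pool.Agent.N856.JL (sfp sfp_self)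

lemma pair_iff (c : ℤ × ℤ) : Pair c ↔ Pr c := by
  unfold Pair Pr
  rw [Int.odd_iff, Int.even_iff]

lemma nz_iff (p : ℕ) (hp : p.Prime) (m : ℤ) : NzSq p m ↔ jacobiSym m p = 1 := by
  have : Fact p.Prime := ⟨hp⟩
  unfold NzSq
  rw [← jacobiSym.legendreSym.to_jacobiSym]
  constructor
  · rintro ⟨h1, h2⟩
    exact (legendreSym.eq_one_iff p h1).2 h2
  · intro h
    have h1 : (m : ZMod p) ≠ 0 := by
      intro h0
      rw [(legendreSym.eq_zero_iff p m).2 h0] at h
      exact absurd h (by norm_num)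
    exact ⟨h1, (legendreSym.eq_one_iff p h1).1 h⟩

lemma N_iff {F : Finset (ℤ × ℤ)} (hF : ∀ c ∈ F, Pair c) (n : ℕ) : N F n ↔ n ∈ NF F := by
  constructor
  · rintro ⟨h1, h2, h3⟩
    refine ⟨h1, h2, fun c hc => ?_⟩
    obtain ⟨k1, k2, k3, k4⟩ := (pair_iff c).1 (hF c hc)
    exact ⟨h1, h2, k1, k2, k3, k4,
      fun p hp hp2 hd h => (h3 c hc p hp hp2).1 hd ((nz_iff p hp _).2 h),
      fun p hp hp2 hd h => (h3 c hc p hp hp2).2 hd ((nz_iff p hp _).2 h)⟩
  · rintro ⟨h1, h2, h3⟩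
    refine ⟨h1, h2, fun c hc p hp hp2 => ⟨fun hd h => ?_, fun hd h => ?_⟩⟩
    · exact (h3 c hc).ab p hp hp2 hd ((nz_iff p hp _).1 h)
    · exact (h3 c hc).dd p hp hp2 hd ((nz_iff p hp _).1 h)

lemma D_iff (F : Finset (ℤ × ℤ)) (d : ℕ) : Disc F d ↔ Dc F d := by
  unfold Disc Dc
  refine and_congr_right fun _ => and_congr_right fun _ => forall_congr' fun c =>
    forall_congr' fun _ => forall_congr' fun p => forall_congr' fun hp => forall_congr' fun _ =>
    forall_congr' fun _ => ?_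
  exact nz_iff p hp d

lemma dens_iff' {P P' Q Q' : ℕ → Prop} {δ : ℝ} (hP : ∀ m, P m ↔ P' m) (hQ : ∀ m, P m → (Q m ↔ Q' m))
    (h : Pool.Agent.N856.JL.Av.HasDensity P Q δ) : HasDensity P' Q' δ := by
  have e1 : P = P' := funext fun m => propext (hP m)
  subst e1
  have e2 : (fun m => P m ∧ Q m) = fun m => P m ∧ Q' m :=
    funext fun m => propext (and_congr_right fun h => hQ m h)
  unfold Pool.Agent.N856.JL.Av.HasDensity at h
  unfold HasDensity
  rw [← e2]
  exact h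

lemma triv_iff {F : Finset (ℤ × ℤ)} (hF : ∀ c ∈ F, Pair c) {r : ℕ} {d : Fin r → ℕ}
    (hd : ∀ i, Disc F (d i)) {n : ℕ} (hn : N F n) (T : Finset (Fin r)) {c : ℤ × ℤ} (hc : c ∈ F) :
    Triv d n c T ↔ Qc (sfp (n * ∏ i ∈ T, d i)) :=
  triv_prod (fun c hc => (pair_iff c).1 (hF c hc)) (fun i => (D_iff F _).1 (hd i))
    ((N_iff hF n).1 hn) T hc

open Classical in
/-- the law of the number of the elements -/
lemma dens_card {ι : Type} [Fintype ι] {P : ℕ → Prop} {Q : ℕ → ι → Prop} {η : ℝ}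
    (h : ∀ V : Finset ι, HasDensity P (fun n => ∀ T, (Q n T ↔ T ∈ V))
      (η ^ V.card * (1 - η) ^ (Fintype.card ι - V.card))) (k : ℕ) :
    HasDensity P (fun n => (Finset.univ.filter fun T => Q n T).card = k)
      ((Fintype.card ι).choose k * (η ^ k * (1 - η) ^ (Fintype.card ι - k))) := by
  unfold HasDensity at h ⊢
  have h1 := tendsto_finsetSum (Finset.powersetCard k (Finset.univ : Finset ι)) fun V _ => h V
  have e1 : ∑ V ∈ Finset.powersetCard k (Finset.univ : Finset ι),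
      η ^ V.card * (1 - η) ^ (Fintype.card ι - V.card) =
      (Fintype.card ι).choose k * (η ^ k * (1 - η) ^ (Fintype.card ι - k)) := by
    rw [Finset.sum_congr rfl fun V hV => by rw [(Finset.mem_powersetCard.1 hV).2],
      Finset.sum_const, Finset.card_powersetCard, nsmul_eq_mul]
    rfl
  rw [e1] at h1
  refine h1.congr fun X => ?_
  rw [← Finset.sum_div]
  congr 1
  rw [← Nat.cast_sum, Nat.cast_inj]
  unfold count
  rw [← Finset.card_biUnion]
  · congr 1
    ext n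
    simp only [Finset.mem_biUnion, Finset.mem_powersetCard, Finset.mem_filter]
    constructor
    · rintro ⟨V, ⟨-, hV⟩, hn, hP, hQ⟩
      refine ⟨hn, hP, ?_⟩
      rw [← hV]
      congr 1
      ext T
      rw [Finset.mem_filter]
      exact ⟨fun h => (hQ T).1 h.2, fun h => ⟨Finset.mem_univ T, (hQ T).2 h⟩⟩
    · rintro ⟨hn, hP, hQ⟩
      refine ⟨Finset.univ.filter fun T => Q n T, ⟨Finset.subset_univ _, hQ⟩, hn, hP, fun T => ?_⟩
      rw [Finset.mem_filter]
      exact ⟨fun h => ⟨Finset.mem_univ T, h⟩, fun h => h.2⟩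
  · intro V _ V' _ hne
    rw [Function.onFun, Finset.disjoint_left]
    intro n hn hn'
    simp only [Finset.mem_filter] at hn hn'
    refine hne (Finset.ext fun T => ?_)
    rw [← hn.2.2 T, ← hn'.2.2 T]

open Classical in
/-- **The theorem.** -/
theorem result (F : Finset (ℤ × ℤ)) (hF : ∀ c ∈ F, Pair c) (r : ℕ) (d : Fin r → ℕ)
    (hd : ∀ i, Disc F (d i)) (hi : Independent d) :
    -- the twists
    (∃ δ : ℝ, 0 < δ ∧ ∀ᶠ X : ℕ in atTop, δ * X ≤ count (N F) X) ∧
    -- the field, its characters, and the multiplicities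
    (∀ (K : Type) [Field K] [NumberField K] (x : Fin r → K), IsField d K x →
      IsGalois ℚ K ∧ Module.finrank ℚ K = 2 ^ r ∧
      (∀ T : Finset (Fin r), ∃ χ : (K ≃ₐ[ℚ] K) →* ℤˣ, IsChar x T χ) ∧
      (∀ χ : (K ≃ₐ[ℚ] K) →* ℤˣ, ∃! T : Finset (Fin r), IsChar x T χ) ∧
      ∀ n : ℕ, N F n → ∀ T : Finset (Fin r), ∀ χ : (K ≃ₐ[ℚ] K) →* ℤˣ, IsChar x T χ →
        ∀ c ∈ F, Triv d n c T → Finite (Isotypic K n c χ) ∧ mult K n c χ = 0) ∧
    -- the curves of `F` have the same trivial characters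
    (∀ n : ℕ, N F n → ∀ T : Finset (Fin r), ∀ c ∈ F, ∀ c' ∈ F, (Triv d n c T ↔ Triv d n c' T)) ∧
    -- the joint law
    (∀ c ∈ F, ∀ V : Finset (Finset (Fin r)),
      HasDensity (N F) (fun n => ∀ T, (Triv d n c T ↔ T ∈ V))
        (eta ^ V.card * (1 - eta) ^ (2 ^ r - V.card))) ∧
    -- the binomial law of the number of the trivial characters
    (∀ c ∈ F, ∀ k : ℕ, HasDensity (N F) (fun n => (Finset.univ.filter fun T => Triv d n c T).card = k)
      ((2 ^ r).choose k * (eta ^ k * (1 - eta) ^ (2 ^ r - k)))) ∧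
    -- all the multiplicities of all the curves are zero
    (F.Nonempty → ∃ G : ℕ → Prop, HasDensity (N F) G (eta ^ 2 ^ r) ∧
      ∀ n : ℕ, N F n → G n → ∀ (K : Type) [Field K] [NumberField K] (x : Fin r → K),
        IsField d K x → ∀ c ∈ F, ∀ χ : (K ≃ₐ[ℚ] K) →* ℤˣ, mult K n c χ = 0) := by
  have hF' : ∀ c ∈ F, Pr c := fun c hc => (pair_iff c).1 (hF c hc)
  have hDc : ∀ i, Dc F (d i) := fun i => (D_iff F _).1 (hd i)
  have hd0 : ∀ i, 0 < d i := fun i => Nat.pos_of_ne_zero (hd i).1.ne_zero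
  have hpat : ∀ c ∈ F, ∀ V : Finset (Finset (Fin r)),
      HasDensity (N F) (fun n => ∀ T, (Triv d n c T ↔ T ∈ V))
        (eta ^ V.card * (1 - eta) ^ (2 ^ r - V.card)) := by
    intro c hc V
    refine dens_iff' (fun n => (N_iff hF n).symm) (fun n hn => ?_) (dens_pat parts hF' hDc hi V)
    refine forall_congr' fun T => ?_
    rw [triv_iff hF hd ((N_iff hF n).2 hn) T hc]
  have hiso : ∀ (K : Type) [Field K] [NumberField K] (x : Fin r → K), IsField d K x →
      ∀ n : ℕ, N F n → ∀ T : Finset (Fin r), ∀ χ : (K ≃ₐ[ℚ] K) →* ℤˣ, IsChar x T χ →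
        ∀ c ∈ F, Triv d n c T → Finite (Isotypic K n c χ) ∧ mult K n c χ = 0 := by
    intro K _ _ x hK n hn T χ hχ c hc hT
    have hG : IsGalois ℚ K := (t_CHR r d hd0 hi K x hK.1 hK.2).1
    have hm0 : ((∏ i ∈ T, d i : ℕ) : ℤ) ≠ 0 := by
      have := pos_prod hDc T
      exact_mod_cast this.ne'
    have hn0 : (n : ℤ) ≠ 0 := by exact_mod_cast hn.1.ne_zero
    refine t_ISO K (A n c) (B n c) ((∏ i ∈ T, d i : ℕ) : ℤ) (∏ i ∈ T, x i) χ hm0
      (disc (hF' c hc) hn0) ?_ hχ ?_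
    · rw [← Finset.prod_pow, Finset.prod_congr rfl fun i _ => hK.1 i]
      push_cast
      rfl
    · have h1 := hT.1
      have e : W ((n * ∏ i ∈ T, d i : ℕ) : ℤ) c =
          WQ (A n c * ((∏ i ∈ T, d i : ℕ) : ℤ) ^ 2) (B n c * ((∏ i ∈ T, d i : ℕ) : ℤ) ^ 3) := by
        have e1 : A ((n * ∏ i ∈ T, d i : ℕ) : ℤ) c = A n c * ((∏ i ∈ T, d i : ℕ) : ℤ) ^ 2 := by
          unfold A
          push_cast
          ring
        have e2 : B ((n * ∏ i ∈ T, d i : ℕ) : ℤ) c = B n c * ((∏ i ∈ T, d i : ℕ) : ℤ) ^ 3 := by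
          unfold B
          push_cast
          ring
        unfold W WQ
        rw [e1, e2]
      rwa [e] at h1
  refine ⟨?_, fun K _ _ x hK => ?_, fun n hn T c hc c' hc' => ?_, hpat, fun c hc k => ?_, ?_⟩
  · obtain ⟨δ, hδ, X₁, hlow⟩ := parts2.p.low F hF'
    refine ⟨δ, hδ, eventually_atTop.2 ⟨X₁, fun X hX => ?_⟩⟩
    have e : N F = fun n => n ∈ NF F := funext fun n => propext (N_iff hF n)
    rw [e]
    exact hlow X hX
  · obtain ⟨h1, h2, h3, h4⟩ := t_CHR r d hd0 hi K x hK.1 hK.2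
    exact ⟨h1, h2, h3, h4, hiso K x hK⟩
  · rw [triv_iff hF hd hn T hc, triv_iff hF hd hn T hc']
  · have h := dens_card (ι := Finset (Fin r)) (P := N F) (Q := fun n T => Triv d n c T) (η := eta)
      (fun V => by
        rw [Fintype.card_finset, Fintype.card_fin]
        exact hpat c hc V) k
    rw [Fintype.card_finset, Fintype.card_fin] at h
    exact h
  · rintro ⟨c₀, hc₀⟩
    refine ⟨fun n => ∀ T, (Triv d n c₀ T ↔ T ∈ (Finset.univ : Finset (Finset (Fin r)))), ?_,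
      fun n hn hG K _ _ x hK c hc χ => ?_⟩
    · have h := hpat c₀ hc₀ Finset.univ
      rw [Finset.card_univ, Fintype.card_finset, Fintype.card_fin, Nat.sub_self, pow_zero,
        mul_one] at h
      exact h
    · obtain ⟨T, hT, -⟩ := (t_CHR r d hd0 hi K x hK.1 hK.2).2.2.2 χ
      have h1 : Triv d n c₀ T := (hG T).2 (Finset.mem_univ T)
      have h2 : Triv d n c T := by
        rw [triv_iff hF hd hn T hc, ← triv_iff hF hd hn T hc₀]
        exact h1
      exact (hiso K x hK n hn T χ hT c hc h2).2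

end proof

end Pool.Agent.Results.MP_775b3b_nt.PatternsOfCharacters
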