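import Pool.Agent.N922.PQ.Final2
import Pool.Agent.N922.PQ.Unr

/-!
# All Artin twists by representations of a Galois 2-extension `F / ℚ` have rank zero for a positive
# proportion of all elliptic curves over `ℚ`

Let `F / ℚ` be ANY finite Galois extension of 2-power degree in which the prime `2` is unramified
(no other condition: the Galois group and the ramification at the odd primes are arbitrary).

Theorem. Among ALL elliptic curves `E / ℚ`, ordered by height as in the problem, a positive
proportion has trivial group `E(F) = 0`; so `m_ρ(E) = 0` for every representation `ρ` of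
`Gal(F / ℚ)`, at the same time.

The proof. `F = ℚ(γ)`, `γ` a zero of `g`, `δ` a combination of `g` and `g'`. We consider the pairs
`(a, b)` with squarefree `4 a ^ 3 + 27 b ^ 2`, `a > 0`, `4 ∣ a - b`, for which `X ^ 3 + a X + b` is
irreducible modulo the primes in `T` (`2`, `3` and the prime divisors of `δ` are in `T`) and is
`X (X ^ 2 + s)` modulo `Q ∈ S`, `- s` not a square; `S` is a large finite set of primes, `1` modulo `8`,
which split completely in `F`. Let `θ` be a zero, `L = ℚ(θ)`, with ring of integers `ℤ[θ]`. Elements `α`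
of `L` with square norm and even valuations which are squares at the `Q ∈ S` give lattices of rank three
with the unimodular form `c₂(x y / α)` of signature `(2, 1)`, hence (by reduction theory and
Minkowski's theorem) tuples `B` of integers in a box with `chA B = a`, `chB B = b`, with two common
isotropic vectors modulo each `Q ∈ S`; this has probability about `1 / (2 Q ^ 2)` at `Q`, so that the
number of such `(a, b)` is smaller than the number of all by a factor `2 ^ (- |S|)`. The other `(a, b)`
are good. By the quadratic reciprocity law (the product formula for the form `c₂(x ^ 2 / α)`) and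
linear algebra over `F_2` there is a subset `J` of `S` for which the 2-Selmer group over `ℚ` of the
twist by `D = ∏ Q ∈ J, Q` relaxed at the primes in `T` different from `2` is zero. The local conditions
over `F` define a group of elements of `F(θ)` modulo squares, stable under `Gal(F / ℚ)`; a descent
along steps of degree two shows that it is zero because its invariant part lies in the relaxed
Selmer group over `ℚ`. At the prime `2` this needs that a class over `ℚ_2` which comes from a point over
an unramified extension comes from a point over `ℚ_2`: for `a = b` modulo `4` the classes of points are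
`1` and `1 + (1 - a) θ + (3 - a) θ ^ 2` modulo `4`, over every unramified extension, and over `ℚ_2` the
second one belongs to a point. Hence the 2-Selmer group over `F` of the twist is zero. There
are at most `2 ^ |S|` curves of the family for each twist. The group `E(F)` is then finite, of odd order,
and it is zero because the fibre at a prime over `2` is additive and `F` is unramified there.

Projects PQ and PV (helper922), an analogue over `ℚ` of the projects PP and PM of helper874 over
`k(t)`. Parts by helpers 3, 7, 40, 42, 50, 227, 273, 296, 301, 362, 368, 400, 415, 441, 456, 592, 607, 655,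
667, 707, 738, 747, 774, 803, 816, 849, 900, 945, 954, 966, (the prime `2`) 61, 137, 279, 301, 323, 559, 615,
667, 907, 951, and (Galois cohomology, quadratic steps, from PP and PM) 75, 187, 426, 498, 630, 650, 692,
803, 849.
-/

set_option autoImplicit false
set_option linter.all false

namespace Pool.Agent.Results.MP_775b3b_nt.PositiveProportionUnramified

open Filter NumberField
open scoped Classical TensorProduct

/-- The equation `y ^ 2 = x ^ 3 + A x + B` with integers `A`, `B` defines an elliptic curve, and
there is no prime `p` with `p ^ 4 ∣ A` and `p ^ 6 ∣ B`. Every elliptic curve over `ℚ` is isomorphic to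
exactly one of these. -/
structure IsMinimal (A B : ℤ) : Prop where
  elliptic : 4 * A ^ 3 + 27 * B ^ 2 ≠ 0
  minimal : ∀ p : ℕ, p.Prime → ¬ ((p : ℤ) ^ 4 ∣ A ∧ (p : ℤ) ^ 6 ∣ B)

/-- The height. -/
def height (p : ℤ × ℤ) : ℤ := max (4 * |p.1| ^ 3) (27 * p.2 ^ 2)

/-- The set of all elliptic curves over `ℚ` of height at most `X`. -/
def Curves (X : ℕ) : Set (ℤ × ℤ) := {p | IsMinimal p.1 p.2 ∧ height p ≤ X}

/-- The curve `y ^ 2 = x ^ 3 + A x + B` over `ℚ`. -/
def curve (p : ℤ × ℤ) : WeierstrassCurve ℚ := ⟨0, 0, 0, (p.1 : ℚ), (p.2 : ℚ)⟩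

section mult

variable (F : Type) [Field F] [CharZero F] (p : ℤ × ℤ)

/-- The group `E(F)`. -/
def Pts : Type := ((curve p).baseChange F).toAffine.Point

noncomputable instance instPts : AddCommGroup (Pts F p) :=
  (inferInstance : AddCommGroup ((curve p).baseChange F).toAffine.Point)

/-- The action of `g` in the Galois group on `E(F)`. -/
noncomputable def act (g : F ≃ₐ[ℚ] F) : Pts F p →+ Pts F p :=
  WeierstrassCurve.Affine.Point.map (W' := (curve p).toAffine) g.toAlgHom

/-- The complex vector space `V_E = E(F) ⊗ ℂ`. -/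
def VE : Type := ℂ ⊗[ℤ] Pts F p

noncomputable instance instVE : AddCommGroup (VE F p) :=
  (inferInstance : AddCommGroup (ℂ ⊗[ℤ] Pts F p))

noncomputable instance instVE' : Module ℂ (VE F p) :=
  (inferInstance : Module ℂ (ℂ ⊗[ℤ] Pts F p))

/-- The action of `g` on `V_E`. -/
noncomputable def gal (g : F ≃ₐ[ℚ] F) : VE F p →ₗ[ℂ] VE F p :=
  LinearMap.baseChange ℂ (act F p g).toIntLinearMap

/-- The space `Hom_G(ρ, V_E)`. -/
def HomG {V : Type} [AddCommGroup V] [Module ℂ V] (ρ : Representation ℂ (F ≃ₐ[ℚ] F) V) :
    Submodule ℂ (V →ₗ[ℂ] VE F p) where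
  carrier := {f | ∀ (g : F ≃ₐ[ℚ] F) (v : V), f (ρ g v) = gal F p g (f v)}
  add_mem' := by
    intro f f' h h' g v
    rw [LinearMap.add_apply, LinearMap.add_apply, h g v, h' g v, map_add]
  zero_mem' := by
    intro g v
    rw [LinearMap.zero_apply, LinearMap.zero_apply, map_zero]
  smul_mem' := by
    intro c f h g v
    rw [LinearMap.smul_apply, LinearMap.smul_apply, h g v, map_smul]

/-- The multiplicity `m_ρ(E) = dim Hom_G(ρ, V_E)`. -/
noncomputable def mult {V : Type} [AddCommGroup V] [Module ℂ V]
    (ρ : Representation ℂ (F ≃ₐ[ℚ] F) V) : Cardinal := Module.rank ℂ (HomG F p ρ)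

end mult

/-- `E(F) = 0`, and all multiplicities `m_ρ(E)` are zero. -/
structure AllZero (F : Type) [Field F] [CharZero F] (p : ℤ × ℤ) : Prop where
  trivial : Subsingleton (Pts F p)
  zero : ∀ (V : Type) [AddCommGroup V] [Module ℂ V] (ρ : Representation ℂ (F ≃ₐ[ℚ] F) V),
    mult F p ρ = 0

theorem crv_iff (X : ℕ) (p : ℤ × ℤ) : Pool.Agent.N922.PQ.Crv X p.1 p.2 ↔ p ∈ Curves X := by
  constructor
  · rintro ⟨h1, h2, h3, h4⟩
    exact ⟨⟨h1, h2⟩, max_le h3 h4⟩
  · rintro ⟨⟨h1, h2⟩, h3⟩
    exact ⟨h1, h2, (le_max_left _ _).trans h3, (le_max_right _ _).trans h3⟩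

theorem nonempty {X : ℕ} (hX : 27 ≤ X) : ((1, 1) : ℤ × ℤ) ∈ Curves X := by
  refine ⟨⟨by norm_num, ?_⟩, ?_⟩
  · rintro p hp ⟨h, -⟩
    have h1 : ((p : ℤ)) ∣ 1 := (dvd_pow_self (p : ℤ) (by norm_num)).trans h
    have h2 : p ∣ 1 := by exact_mod_cast h1
    exact hp.one_lt.ne' (Nat.dvd_one.1 h2)
  · have : height ((1, 1) : ℤ × ℤ) = 27 := by
      simp [height]
    rw [this]
    exact_mod_cast hX

/-- For every Galois extension `F / ℚ` of degree `2 ^ n` in which `2` is unramified (that is,
no prime ideal `𝔭` of `F` has `2 ∈ 𝔭 ^ 2`) there is `c > 0` such that for all large `X` at least `c` times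
the number of all elliptic curves `E` over `ℚ` of height at most `X` have `E(F) = 0` and `m_ρ(E) = 0` for
all representations `ρ` of `Gal(F / ℚ)`. -/
theorem result (F : Type) [Field F] [NumberField F] [IsGalois ℚ F] (n : ℕ)
    (hn : Module.finrank ℚ F = 2 ^ n)
    (h2 : ∀ 𝔭 : Ideal (𝓞 F), 𝔭.IsPrime → (2 : 𝓞 F) ∉ 𝔭 ^ 2) :
    (∀ X : ℕ, (Curves X).Finite) ∧
    ∃ c : ℝ, 0 < c ∧ ∀ᶠ X : ℕ in atTop,
      0 < (Curves X).ncard ∧
      c * ((Curves X).ncard : ℝ) ≤ (({p ∈ Curves X | AllZero F p}).ncard : ℝ) := by
  have hset : ∀ X : ℕ, Curves X = {p : ℤ × ℤ | Pool.Agent.N922.PQ.Crv X p.1 p.2} := by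
    intro X
    ext p
    exact (crv_iff X p).symm
  have hfin : ∀ X : ℕ, (Curves X).Finite := fun X => by
    rw [hset]
    exact Pool.Agent.N922.PQ.crv_fin X
  refine ⟨hfin, ?_⟩
  obtain ⟨c, hc, X₀, h⟩ := Pool.Agent.N922.PQ.finalV F (𝓞 F) hn
    (Pool.Agent.N922.PQ.val_two_of h2)
  refine ⟨c, hc, ?_⟩
  filter_upwards [eventually_ge_atTop (max X₀ 27)] with X hX
  refine ⟨(Set.ncard_pos (hfin X)).2 ⟨_, nonempty ((le_max_right _ _).trans hX)⟩, ?_⟩
  have h1 := (h X ((le_max_left _ _).trans hX)).2
  rw [← hset] at h1
  refine h1.trans ?_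
  have h3 : {p : ℤ × ℤ | Pool.Agent.N922.PQ.Crv X p.1 p.2 ∧
      Pool.Agent.N922.PQ.GoodV (M := F) (𝓞 F) p} ⊆ {p ∈ Curves X | AllZero F p} := by
    rintro p ⟨hp, -, hd, -⟩
    refine ⟨(crv_iff X p).1 hp, ?_⟩
    have e : (Pool.Agent.N874.PP.sW (p.1 : F) (p.2 : F)).baseChange F =
        (curve p).baseChange F := by
      apply WeierstrassCurve.ext <;>
        simp [Pool.Agent.N874.PP.sW, curve, WeierstrassCurve.baseChange]
    have key : ∀ W : WeierstrassCurve F,
        (Pool.Agent.N874.PP.sW (p.1 : F) (p.2 : F)).baseChange F = W →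
        Subsingleton W.toAffine.Point := by
      rintro W rfl
      exact hd
    have k1 : Subsingleton (Pts F p) := key _ e
    refine ⟨k1, ?_⟩
    intro V _ _ ρ
    -- the tensor product is zero
    have hz : ∀ x : VE F p, x = 0 := by
      intro x
      change ℂ ⊗[ℤ] Pts F p at x
      induction x using TensorProduct.induction_on with
      | zero => rfl
      | tmul z P =>
        rw [Subsingleton.elim P 0, TensorProduct.tmul_zero]
        rfl
      | add x y hx hy =>
        rw [hx, hy]
        exact add_zero (0 : VE F p)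
    have hs : Subsingleton (HomG F p ρ) := by
      refine ⟨fun f f' => ?_⟩
      apply Subtype.ext
      ext v
      rw [hz ((f : V →ₗ[ℂ] VE F p) v), hz ((f' : V →ₗ[ℂ] VE F p) v)]
    exact rank_subsingleton' ℂ _
  have h4 := Set.ncard_le_ncard h3 ((hfin X).subset fun p hp => hp.1)
  exact_mod_cast h4

end Pool.Agent.Results.MP_775b3b_nt.PositiveProportionUnramified
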