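import Mathlib
import Pool.Agent.Y770.EP.Final

/-!
# Euler products of Artin twists of elliptic curves in the half-plane `Re s ≥ 1 + δ`, for almost all curves

Let `ρ` be an Artin representation over a number field `K` (over `ℚ` in the problem). The minimalist conjecture concerns the behaviour of
`L(E, ρ, s)` at the centre `s = 1`; by the Riemann hypothesis the Euler product should converge for `Re s > 1`. For the curves
`y² = x³ + a x + b + n`, `|n| ≤ X`, with at most `X^(1 - c)` exceptions, uniformly in `a`, `b` and for any `X^c` representations at the same time, we show: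

* the partial Euler products over the primes of norm at most `x` and at most `y` of `L(E, ρ, s)` agree up to a factor `1 + O(y^(-c))` for all
  `(log X)^(1/c) ≤ y ≤ x ≤ X^c` and all `s` with `Re s ≥ 1 + δ`, `|Im s| ≤ X^c`;
* up to the distance `A / log X` of the edge `Re s = 3/2` of the half-plane of absolute convergence `L(E, ρ, s)` agrees with these short
  partial products up to a factor between `1 - η` and `1 + η`.

So for all but `(2 M + 1) X^(1 - c)` of the curves `y² = x³ + a x + n` with integers `|a| ≤ M`, `|n| ≤ X`, for any `M`; for `M` and `X` of the order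
of `H^(1/3)` and `H^(1/2)` these are all curves of height at most about `H`.

The theorem is `Pool.Agent.Y770.EP.final` of the library, with the second part added.
-/

set_option autoImplicit false

open NumberField IsDedekindDomain

namespace Pool.Agent.Results.MP_775b3b_nt.ProductsInTheStrip

variable {K : Type} [Field K] [NumberField K] {N : ℕ}

/-- The number of elements of the residue field of `v`. -/
noncomputable def norm (v : HeightOneSpectrum (𝓞 K)) : ℕ := Ideal.absNorm v.asIdeal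

/-- The number of the solutions of `y² = x³ + a x + b` modulo `v`. -/
noncomputable def points (a b : 𝓞 K) (v : HeightOneSpectrum (𝓞 K)) : ℕ :=
  Nat.card {P : (𝓞 K ⧸ v.asIdeal) × (𝓞 K ⧸ v.asIdeal) //
    P.2 ^ 2 = P.1 ^ 3 + Ideal.Quotient.mk v.asIdeal a * P.1 + Ideal.Quotient.mk v.asIdeal b}

/-- The prime `v` does not divide `6 (4 a³ + 27 b²)`. -/
def IsGood (a b : 𝓞 K) (v : HeightOneSpectrum (𝓞 K)) : Prop := 6 * (4 * a ^ 3 + 27 * b ^ 2) ∉ v.asIdeal

/-- The Euler factor at `v` of `L(E, ρ, s)`, where `E` is the curve `y² = x³ + a x + b` and `γ v j`, `j < N`, are the eigenvalues of the Frobenius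
element of `v` (on the invariants of inertia, and `0` for the missing ones): the product over `j` of `(1 - a_v γ q^(-s) + γ² q^(1 - 2s))⁻¹`, where
`a_v = q - (number of solutions)` is the trace of `E`. -/
noncomputable def factor (a b : 𝓞 K) (γ : HeightOneSpectrum (𝓞 K) → Fin N → ℂ) (s : ℂ)
    (v : HeightOneSpectrum (𝓞 K)) : ℂ :=
  ∏ j, (1 - ((norm v : ℂ) - points a b v) * γ v j * (norm v : ℂ) ^ (-s) + γ v j ^ 2 * (norm v : ℂ) ^ (1 - 2 * s))⁻¹

/-- The product of the Euler factors at the good primes of norm at most `x`. -/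
noncomputable def partialProduct (a b : 𝓞 K) (γ : HeightOneSpectrum (𝓞 K) → Fin N → ℂ) (s : ℂ) (x : ℕ) : ℂ :=
  ∏ᶠ v ∈ {v : HeightOneSpectrum (𝓞 K) | IsGood a b v ∧ norm v ≤ x}, factor a b γ s v

/-- `L(E, ρ, s)`, `Re s > 3/2`: the product of the Euler factors at all good primes. -/
noncomputable def LFunction (a b : 𝓞 K) (γ : HeightOneSpectrum (𝓞 K) → Fin N → ℂ) (s : ℂ) : ℂ :=
  ∏' v : {v : HeightOneSpectrum (𝓞 K) // IsGood a b v}, factor a b γ s v

/-- The partial products for `y ≤ x` are close to each other in the half-plane `Re s ≥ 1 + δ`, if `(log X)^(1/c) ≤ y ≤ x ≤ X^c`. -/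
def Stable (δ c : ℝ) (X : ℕ) (a b : 𝓞 K) (γ : HeightOneSpectrum (𝓞 K) → Fin N → ℂ) : Prop :=
  ∀ s : ℂ, 1 + δ ≤ s.re → |s.im| ≤ (X : ℝ) ^ c → ∀ y x : ℕ, (Real.log X) ^ (1 / c) ≤ y → y ≤ x → (x : ℝ) ≤ (X : ℝ) ^ c →
    ‖partialProduct a b γ s x / partialProduct a b γ s y - 1‖ ≤ (y : ℝ) ^ (-c)

/-- `L(E, ρ, s)` is close to the partial products for `y ≥ (log X)^(1/c)` up to the distance `A / log X` of the edge. -/
def NearEdge (η A c : ℝ) (X : ℕ) (a b : 𝓞 K) (γ : HeightOneSpectrum (𝓞 K) → Fin N → ℂ) : Prop :=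
  ∀ s : ℂ, 3 / 2 + A / Real.log X ≤ s.re → |s.im| ≤ (X : ℝ) ^ c → ∀ y : ℕ, (Real.log X) ^ (1 / c) ≤ y →
    ‖LFunction a b γ s / partialProduct a b γ s y - 1‖ ≤ η

theorem finite_exc (X : ℕ) (p : ℤ → Prop) : {n : ℤ | |n| ≤ X ∧ p n}.Finite :=
  Set.Finite.subset (Set.finite_Icc (-(X : ℤ)) X) fun n hn => by
    have := abs_le.1 hn.1
    exact ⟨this.1, this.2⟩

theorem count_pairs (M X : ℕ) (p : ℤ → ℤ → Prop) {B : ℝ} (h : ∀ a, ({n : ℤ | |n| ≤ X ∧ p a n}.ncard : ℝ) ≤ B) :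
    ({z : ℤ × ℤ | |z.1| ≤ M ∧ |z.2| ≤ X ∧ p z.1 z.2}.ncard : ℝ) ≤ (2 * M + 1) * B := by
  classical
  have hsub : {z : ℤ × ℤ | |z.1| ≤ M ∧ |z.2| ≤ X ∧ p z.1 z.2} =
      (((Finset.Icc (-(M : ℤ)) M).sigma fun a => (finite_exc X (p a)).toFinset).image fun s => (s.1, s.2) : Finset (ℤ × ℤ)) := by
    ext ⟨a, n⟩
    simp only [Set.mem_ofPred_eq, Finset.coe_image, Set.mem_image, Finset.mem_coe, Finset.mem_sigma, Finset.mem_Icc,
      Set.Finite.mem_toFinset]
    constructor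
    · rintro ⟨h1, h2, h3⟩
      exact ⟨⟨a, n⟩, ⟨abs_le.1 h1, h2, h3⟩, rfl⟩
    · rintro ⟨⟨a', n'⟩, ⟨h1, h2, h3⟩, h4⟩
      simp only [Prod.mk.injEq] at h4
      obtain ⟨rfl, rfl⟩ := h4
      exact ⟨abs_le.2 h1, h2, h3⟩
  rw [hsub, Set.ncard_coe_finset]
  have h1 : ((((Finset.Icc (-(M : ℤ)) M).sigma fun a => (finite_exc X (p a)).toFinset).image fun s => (s.1, s.2)).card : ℝ) ≤
      ∑ a ∈ Finset.Icc (-(M : ℤ)) M, ((finite_exc X (p a)).toFinset.card : ℝ) := by
    have h2 := Finset.card_image_le (s := (Finset.Icc (-(M : ℤ)) M).sigma fun a => (finite_exc X (p a)).toFinset)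
      (f := fun s => (s.1, s.2))
    rw [Finset.card_sigma] at h2
    exact_mod_cast h2
  refine h1.trans ?_
  calc ∑ a ∈ Finset.Icc (-(M : ℤ)) M, ((finite_exc X (p a)).toFinset.card : ℝ) ≤ ∑ _a ∈ Finset.Icc (-(M : ℤ)) M, B := by
        refine Finset.sum_le_sum fun a _ => ?_
        have h3 := h a
        rwa [Set.ncard_eq_toFinset_card _ (finite_exc X (p a))] at h3
    _ = (2 * M + 1) * B := by
        rw [Finset.sum_const, Int.card_Icc, nsmul_eq_mul]
        congr 1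
        have h4 : ((M : ℤ) + 1 - -(M : ℤ)).toNat = 2 * M + 1 := by omega
        rw [h4]
        push_cast
        ring

/-- **Almost all curves.** Let `K` be a number field, `N` an integer and `δ > 0`. There is `c > 0` such that for every `η > 0` there are `A` and `X₀`
with the following property for all `X ≥ X₀` and any `m ≤ X^c` systems `γ_k` of `N` numbers of absolute value at most `1` for every prime of `K`
(the eigenvalues of the Frobenius elements on `N`-dimensional Artin representations). (1) For all integers `a`, `b` of `K` and all integers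
`|n| ≤ X`, with at most `X^(1 - c)` exceptions, the `L`-functions of `y² = x³ + a x + b + n` twisted by the `γ_k` are `Stable` and `NearEdge`, for all
`k`. (2) The same holds for the curves `y² = x³ + a x + n` for all pairs of integers `(a, n)`, `|a| ≤ M`, `|n| ≤ X`, with at most
`(2 M + 1) X^(1 - c)` exceptions, for every `M`. -/
theorem result (K : Type) [Field K] [NumberField K] (N : ℕ) (δ : ℝ) (hδ : 0 < δ) :
    ∃ c : ℝ, 0 < c ∧ ∀ η : ℝ, 0 < η → ∃ A : ℝ, ∃ X₀ : ℕ, ∀ X : ℕ, X₀ ≤ X → ∀ m : ℕ, (m : ℝ) ≤ (X : ℝ) ^ c →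
      ∀ γ : Fin m → HeightOneSpectrum (𝓞 K) → Fin N → ℂ, (∀ k v j, ‖γ k v j‖ ≤ 1) →
        (∀ a b : 𝓞 K, ({n : ℤ | |n| ≤ X ∧ ¬ ∀ k, Stable δ c X a (b + (n : 𝓞 K)) (γ k) ∧
          NearEdge η A c X a (b + (n : 𝓞 K)) (γ k)}.ncard : ℝ) ≤ (X : ℝ) ^ (1 - c)) ∧
        ∀ M : ℕ, ({z : ℤ × ℤ | |z.1| ≤ M ∧ |z.2| ≤ X ∧ ¬ ∀ k, Stable δ c X (z.1 : 𝓞 K) (z.2 : 𝓞 K) (γ k) ∧
          NearEdge η A c X (z.1 : 𝓞 K) (z.2 : 𝓞 K) (γ k)}.ncard : ℝ) ≤ (2 * M + 1) * (X : ℝ) ^ (1 - c) := by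
  obtain ⟨c, hc0, hc⟩ := Pool.Agent.Y770.EP.final K N δ hδ
  refine ⟨c, hc0, fun η hη => ?_⟩
  obtain ⟨A, X₀, h⟩ := hc η hη
  refine ⟨A, X₀, fun X hX m hm γ hγ => ?_⟩
  have h1 : ∀ a b : 𝓞 K, ({n : ℤ | |n| ≤ X ∧ ¬ ∀ k, Stable δ c X a (b + (n : 𝓞 K)) (γ k) ∧
      NearEdge η A c X a (b + (n : 𝓞 K)) (γ k)}.ncard : ℝ) ≤ (X : ℝ) ^ (1 - c) := fun a b => h X hX a b m hm γ hγ
  refine ⟨h1, fun M => ?_⟩
  refine count_pairs M X (fun a n => ¬ ∀ k, Stable δ c X (a : 𝓞 K) (n : 𝓞 K) (γ k) ∧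
    NearEdge η A c X (a : 𝓞 K) (n : 𝓞 K) (γ k)) fun a => ?_
  have h2 := h1 (a : 𝓞 K) 0
  simp only [zero_add] at h2
  exact h2

end Pool.Agent.Results.MP_775b3b_nt.ProductsInTheStrip
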